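import Pool.Agent.Lib.MP_1cd210_co.Defs

/-!
# Walks, heights, and the extension lemma
-/

namespace Pool.Agent.Lib.MP_1cd210_co

variable {V : Type} {A B R : V → V → Prop} {T S : Set V} {a b m n k D : ℕ} {x y z : V}

theorem DW.rfl' : DW A n x x := by cases n <;> simp [DW]

theorem DW.cons (h : A x z) (h' : DW A n z y) : DW A (n + 1) x y := Or.inr ⟨z, h, h'⟩

theorem DW.succ : ∀ {n : ℕ} {x y : V}, DW A n x y → DW A (n + 1) x y
  | 0, _, _, h => Or.inl h
  | _ + 1, _, _, Or.inl h => Or.inl h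
  | _ + 1, _, _, Or.inr ⟨z, hz, h⟩ => Or.inr ⟨z, hz, DW.succ h⟩

theorem DW.mono_len (h : DW A m x y) (hmn : m ≤ n) : DW A n x y := by
  induction hmn with
  | refl => exact h
  | step _ ih => exact ih.succ

theorem DW.mono (hAB : ∀ x y, A x y → B x y) : ∀ {n : ℕ} {x y : V}, DW A n x y → DW B n x y
  | 0, _, _, h => h
  | _ + 1, _, _, Or.inl h => Or.inl h
  | _ + 1, _, _, Or.inr ⟨z, hz, h⟩ => Or.inr ⟨z, hAB _ _ hz, DW.mono hAB h⟩

theorem DW.trans : ∀ {a : ℕ} {x y z : V}, DW A a x y → DW A b y z → DW A (a + b) x z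
  | 0, _, _, _, h, h' => by
    have : _ = _ := h
    subst this; simpa using h'
  | a + 1, _, _, _, Or.inl h, h' => by
    subst h; exact h'.mono_len (by omega)
  | a + 1, _, _, _, Or.inr ⟨u, hu, h⟩, h' => by
    have := DW.trans h h'
    have h2 := DW.cons hu this
    exact h2.mono_len (by omega)

theorem DW.single (h : A x y) : DW A 1 x y := Or.inr ⟨y, h, DW.rfl'⟩

theorem DW.snoc (h : DW A n x y) (h' : A y z) : DW A (n + 1) x z := h.trans (DW.single h')

theorem DW.reverse : ∀ {n : ℕ} {x y : V}, DW A n x y → DW (fun u v => A v u) n y x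
  | 0, _, _, h => by
    have : _ = _ := h
    subst this; exact DW.rfl'
  | _ + 1, _, _, Or.inl h => by subst h; exact DW.rfl'
  | _ + 1, _, _, Or.inr ⟨z, hz, h⟩ => (DW.reverse h).snoc hz

theorem DW.symm (hs : ∀ x y, R x y → R y x) (h : DW R n x y) : DW R n y x :=
  (DW.reverse h).mono fun _ _ h => hs _ _ h

/-- a walk either avoids `Z` or passes through a vertex of `Z` -/
theorem DW.split (Z : Set V) : ∀ {n : ℕ} {x y : V}, DW R n x y →
    DW (fun u v => R u v ∧ u ∉ Z ∧ v ∉ Z) n x y ∨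
      ∃ u ∈ Z, ∃ a b, a + b = n ∧ DW R a x u ∧ DW R b u y
  | 0, _, _, h => by
    have : _ = _ := h
    subst this; exact Or.inl DW.rfl'
  | _ + 1, _, _, Or.inl h => by subst h; exact Or.inl DW.rfl'
  | n + 1, x, y, Or.inr ⟨z, hz, h⟩ => by
    by_cases hx : x ∈ Z
    · exact Or.inr ⟨x, hx, 0, n + 1, by omega, DW.rfl', DW.cons hz h⟩
    by_cases hz' : z ∈ Z
    · exact Or.inr ⟨z, hz', 1, n, by omega, DW.single hz, h⟩
    rcases DW.split Z h with h | ⟨u, hu, a, b, hab, h1, h2⟩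
    · exact Or.inl (DW.cons ⟨hz, hx, hz'⟩ h)
    · exact Or.inr ⟨u, hu, a + 1, b, by omega, DW.cons hz h1, h2⟩

/-! ### Heights -/

/-- some vertex of `T` can be reached from `z` -/
def CoR (R : V → V → Prop) (T : Set V) (z : V) : Prop := ∃ n, ∃ t ∈ T, DW R n z t

/-- distance from `z` to `T` along `R` -/
noncomputable def hgt (R : V → V → Prop) (T : Set V) (z : V) : ℕ :=
  sInf {n | ∃ t ∈ T, DW R n z t}

theorem hgt_spec (h : CoR R T z) : ∃ t ∈ T, DW R (hgt R T z) z t :=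
  Nat.sInf_mem (s := {n | ∃ t ∈ T, DW R n z t}) h

theorem hgt_le (h : ∃ t ∈ T, DW R n z t) : hgt R T z ≤ n := Nat.sInf_le h

theorem CoR.of_mem (h : z ∈ T) : CoR R T z := ⟨0, z, h, DW.rfl'⟩

theorem hgt_of_mem (h : z ∈ T) : hgt R T z = 0 :=
  Nat.le_zero.1 (hgt_le ⟨z, h, DW.rfl'⟩)

theorem mem_of_hgt (h : CoR R T z) (h0 : hgt R T z = 0) : z ∈ T := by
  obtain ⟨t, ht, hd⟩ := hgt_spec h
  rw [h0] at hd
  have : z = t := hd
  exact this ▸ ht

theorem CoR.adj (h : R x y) (h' : CoR R T y) : CoR R T x := by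
  obtain ⟨n, t, ht, hd⟩ := h'
  exact ⟨n + 1, t, ht, DW.cons h hd⟩

theorem hgt_adj (h : R x y) (h' : CoR R T y) : hgt R T x ≤ hgt R T y + 1 := by
  obtain ⟨t, ht, hd⟩ := hgt_spec h'
  exact hgt_le ⟨t, ht, DW.cons h hd⟩

theorem CoR.dw (h : DW R n x y) (h' : CoR R T y) : CoR R T x := by
  obtain ⟨m, t, ht, hd⟩ := h'
  exact ⟨n + m, t, ht, h.trans hd⟩

theorem hgt_dw (h : DW R n x y) (h' : CoR R T y) : hgt R T x ≤ n + hgt R T y := by
  obtain ⟨t, ht, hd⟩ := hgt_spec h'
  exact hgt_le ⟨t, ht, h.trans hd⟩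

theorem hgt_step (h : CoR R T x) (hx : x ∉ T) :
    ∃ y, R x y ∧ CoR R T y ∧ hgt R T x = hgt R T y + 1 := by
  obtain ⟨t, ht, hd⟩ := hgt_spec h
  cases hn : hgt R T x with
  | zero => exact absurd (mem_of_hgt h hn) hx
  | succ n =>
    rw [hn] at hd
    rcases hd with rfl | ⟨y, hy, hd⟩
    · exact absurd ht hx
    · have hc : CoR R T y := ⟨n, t, ht, hd⟩
      refine ⟨y, hy, hc, ?_⟩
      have h1 := hgt_adj hy hc
      have h2 : hgt R T y ≤ n := hgt_le ⟨t, ht, hd⟩
      omega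

/-! ### States and the extension lemma -/

/-- A strongly connected partial orientation with vertex set `S` and directed diameter at
most `D`. -/
structure State (G : SimpleGraph V) (S : Set V) (A : V → V → Prop) (D : ℕ) : Prop where
  adj : ∀ x y, A x y → G.Adj x y
  asymm : ∀ x y, A x y → ¬ A y x
  mem : ∀ x y, A x y → x ∈ S ∧ y ∈ S
  diam : ∀ x ∈ S, ∀ y ∈ S, DW A D x y

/-- the vertices that can be reached from `S` and from which `S` can be reached -/
def Good (B : V → V → Prop) (S : Set V) : Set V :=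
  {z | (∃ s ∈ S, Relation.ReflTransGen B s z) ∧ ∃ s ∈ S, Relation.ReflTransGen B z s}

theorem subset_Good : S ⊆ Good B S := fun s hs =>
  ⟨⟨s, hs, Relation.ReflTransGen.refl⟩, s, hs, Relation.ReflTransGen.refl⟩

theorem DW.rtg : ∀ {n : ℕ} {x y : V}, DW B n x y → Relation.ReflTransGen B x y
  | 0, _, _, h => by
    have : _ = _ := h
    subst this; exact Relation.ReflTransGen.refl
  | _ + 1, _, _, Or.inl h => by subst h; exact Relation.ReflTransGen.refl
  | _ + 1, _, _, Or.inr ⟨z, hz, h⟩ => Relation.ReflTransGen.head hz (DW.rtg h)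

/-- a `B`-walk that starts at a vertex reachable from `S` and ends at a vertex co-reachable
to `S` stays in `Good B S` -/
theorem DW.restrict : ∀ {n : ℕ} {x y : V}, DW B n x y →
    (∃ s ∈ S, Relation.ReflTransGen B s x) → (∃ s ∈ S, Relation.ReflTransGen B y s) →
    DW (fun u v => B u v ∧ u ∈ Good B S ∧ v ∈ Good B S) n x y
  | 0, _, _, h, _, _ => h
  | _ + 1, _, _, Or.inl h, _, _ => Or.inl h
  | _ + 1, x, y, Or.inr ⟨z, hz, h⟩, ⟨s, hs, hsx⟩, ⟨t, ht, hyt⟩ => by
    have hsz : Relation.ReflTransGen B s z := hsx.tail hz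
    have hzt : Relation.ReflTransGen B z t := h.rtg.trans hyt
    have hxt : Relation.ReflTransGen B x t := Relation.ReflTransGen.head hz hzt
    exact Or.inr ⟨z, ⟨hz, ⟨⟨s, hs, hsx⟩, t, ht, hxt⟩, ⟨s, hs, hsz⟩, t, ht, hzt⟩,
      DW.restrict h ⟨s, hs, hsz⟩ ⟨t, ht, hyt⟩⟩

theorem State.extend {G : SimpleGraph V} {K K' : ℕ} (hS : State G S A D)
    (hadj : ∀ x y, B x y → G.Adj x y) (hasymm : ∀ x y, B x y → ¬ B y x)
    (hBS : ∀ x y, B x y → x ∉ S ∨ y ∉ S)
    (hout : ∀ z ∈ Good B S, ∃ s ∈ S, DW B K s z)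
    (hin : ∀ z ∈ Good B S, ∃ s ∈ S, DW B K' z s) :
    State G (Good B S) (fun x y => A x y ∨ (B x y ∧ x ∈ Good B S ∧ y ∈ Good B S))
      (K' + D + K) where
  adj x y h := by
    rcases h with h | h
    · exact hS.adj _ _ h
    · exact hadj _ _ h.1
  asymm x y h h' := by
    rcases h with h | h <;> rcases h' with h' | h'
    · exact hS.asymm _ _ h h'
    · have := hS.mem _ _ h
      rcases hBS _ _ h'.1 with h2 | h2
      · exact h2 this.2
      · exact h2 this.1
    · have := hS.mem _ _ h'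
      rcases hBS _ _ h.1 with h2 | h2
      · exact h2 this.2
      · exact h2 this.1
    · exact hasymm _ _ h.1 h'.1
  mem x y h := by
    rcases h with h | h
    · have := hS.mem _ _ h
      exact ⟨subset_Good this.1, subset_Good this.2⟩
    · exact h.2
  diam x hx y hy := by
    obtain ⟨s, hs, h1⟩ := hin x hx
    obtain ⟨t, ht, h2⟩ := hout y hy
    have h1' := h1.restrict (S := S) hx.1 ⟨s, hs, Relation.ReflTransGen.refl⟩
    have h2' := h2.restrict (S := S) ⟨t, ht, Relation.ReflTransGen.refl⟩ hy.2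
    have h3 := hS.diam s hs t ht
    exact ((h1'.mono fun _ _ h => Or.inr h).trans (h3.mono fun _ _ h => Or.inl h)).trans
      (h2'.mono fun _ _ h => Or.inr h)

/-- a state with all vertices gives an orientation -/
theorem State.complete {G : SimpleGraph V} (hS : State G Set.univ A D) : OrientedDiamLE G D := by
  refine ⟨fun x y => A x y ∨ (G.Adj x y ∧ ¬ A x y ∧ ¬ A y x ∧ WellOrderingRel x y), ⟨?_, ?_, ?_⟩,
    fun x y => (hS.diam x trivial y trivial).mono fun _ _ h => Or.inl h⟩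
  · rintro x y (h | h)
    · exact hS.adj _ _ h
    · exact h.1
  · intro x y h
    by_cases h1 : A x y
    · exact Or.inl (Or.inl h1)
    by_cases h2 : A y x
    · exact Or.inr (Or.inl h2)
    rcases trichotomous_of (WellOrderingRel (α := V)) x y with h3 | h3 | h3
    · exact Or.inl (Or.inr ⟨h, h1, h2, h3⟩)
    · exact absurd h3 h.ne
    · exact Or.inr (Or.inr ⟨h.symm, h2, h1, h3⟩)
  · rintro x y (h | h) (h' | h')
    · exact hS.asymm _ _ h h'
    · exact h'.2.2.1 h
    · exact h.2.2.1 h'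
    · exact asymm_of (WellOrderingRel (α := V)) h.2.2.2 h'.2.2.2

end Pool.Agent.Lib.MP_1cd210_co
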