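import Pool.Agent.Lib.MP_1cd210_co.Basic

/-!
# The Chvatal-Thomassen step
-/

namespace Pool.Agent.Lib.MP_1cd210_co

variable {V : Type} {A : V → V → Prop} {S : Set V} {D e : ℕ}

theorem DW_of_walk {G : SimpleGraph V} : ∀ {x y : V} (p : G.Walk x y), DW G.Adj p.length x y
  | _, _, .nil => DW.rfl'
  | _, _, .cons h p => DW.cons h (DW_of_walk p)

theorem CoR_of_connected {G : SimpleGraph V} (hG : G.Connected) (hS : S.Nonempty) (v : V) :
    CoR G.Adj S v := by
  obtain ⟨s, hs⟩ := hS
  obtain ⟨p⟩ := hG.preconnected v s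
  exact ⟨_, s, hs, DW_of_walk p⟩

theorem two_color {α : Type} (ν : α → Option α) (key : α → ℕ) (N : ℕ) (hN : ∀ z, key z < N)
    (tie : α → Bool) (h1 : ∀ z w, ν z = some w → key w ≤ key z)
    (h2 : ∀ z w, ν z = some w → key w = key z → ν w = some z ∧ tie w = !tie z) :
    ∃ c : α → Bool, ∀ z w, ν z = some w → c w = !c z := by
  have main : ∀ n, ∃ c : α → Bool, ∀ z w, key z < n → ν z = some w → c w = !c z := by
    intro n
    induction n with
    | zero => exact ⟨fun _ => true, fun z w h => by omega⟩
    | succ n ih =>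
      obtain ⟨c, hc⟩ := ih
      refine ⟨fun z => if key z < n then c z else
        match ν z with
        | none => true
        | some w => if key w < n then !c w else tie z, fun z w hz hzw => ?_⟩
      have hk := h1 z w hzw
      by_cases hzn : key z < n
      · have hwn : key w < n := by omega
        simp only [hzn, hwn, if_true]
        exact hc z w hzn hzw
      · by_cases hwn : key w < n
        · simp [hzn, hwn, hzw]
        · obtain ⟨h3, h4⟩ := h2 z w hzw (by omega)
          simp [hzn, hwn, hzw, h3, h4]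
  obtain ⟨c, hc⟩ := main N
  exact ⟨c, fun z w h => hc z w (hN z) h⟩

theorem ct_step [Finite V] {G : SimpleGraph V} (hG : G.Connected) (hb : Bridgeless G)
    (hne : S.Nonempty) (hS : State G S A D) (he : ∀ v, hgt G.Adj S v ≤ e) (he1 : 1 ≤ e) :
    ∃ S' A', State G S' A' (D + 4 * e) ∧ S ⊆ S' ∧ ∀ v, hgt G.Adj S' v ≤ e - 1 := by
  classical
  set l : V → ℕ := hgt G.Adj S with hl
  have hco : ∀ v, CoR G.Adj S v := CoR_of_connected hG hne
  have hl0 : ∀ v, l v = 0 ↔ v ∈ S := fun v =>
    ⟨fun h => mem_of_hgt (hco v) h, fun h => hgt_of_mem h⟩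
  -- parents
  have hpar : ∀ v, ∃ u, v ∉ S → G.Adj v u ∧ l v = l u + 1 := by
    intro v
    by_cases hv : v ∈ S
    · exact ⟨v, fun h => absurd hv h⟩
    · obtain ⟨u, h1, _, h2⟩ := hgt_step (hco v) hv
      exact ⟨u, fun _ => ⟨h1, h2⟩⟩
  choose par hpar using hpar
  have hlpos : ∀ v, v ∉ S → 1 ≤ l v := fun v hv => by
    have := (hl0 v).not.2 hv
    omega
  have hiter : ∀ v i, i ≤ l v → l (par^[i] v) = l v - i := by
    intro v i
    induction i with
    | zero => intro _; simp
    | succ i ih =>
      intro hi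
      have h1 := ih (by omega)
      have hns : par^[i] v ∉ S := fun h => by
        have := (hl0 _).2 h
        omega
      rw [Function.iterate_succ_apply']
      have := (hpar _ hns).2
      omega
  set top : V → V := fun v => par^[l v - 1] v with htop
  have htop1 : ∀ v, v ∉ S → l (top v) = 1 := by
    intro v hv
    have h1 := hlpos v hv
    have := hiter v (l v - 1) (by omega)
    simp only [htop]
    omega
  have htoppar : ∀ v, v ∉ S → par v ∉ S → top (par v) = top v := by
    intro v hv hp
    have h1 := (hpar v hv).2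
    have h2 := hlpos _ hp
    simp only [htop]
    have : l v - 1 = (l (par v) - 1) + 1 := by omega
    rw [this, Function.iterate_succ_apply]
  have htop_of_one : ∀ v, l v = 1 → top v = v := by
    intro v hv
    simp [htop, hv]
  have htopns : ∀ v, v ∉ S → top v ∉ S := fun v hv h => by
    have h1 := htop1 v hv
    have h2 := (hl0 _).2 h
    omega
  have hparS : ∀ v, l v = 1 → par v ∈ S := by
    intro v hv
    have hns : v ∉ S := fun h => by
      have := (hl0 _).2 h
      omega
    have := (hpar v hns).2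
    exact (hl0 _).1 (by omega)
  -- exits
  obtain ⟨code, hcode⟩ := exists_injective_nat (Sym2 V)
  obtain ⟨num, hnum⟩ := exists_injective_nat V
  let Ex : V → Set (V × V) := fun z => {p | G.Adj p.1 p.2 ∧ p.1 ∉ S ∧ top p.1 = z ∧
    (p.2 ∈ S ∨ top p.2 ≠ z) ∧ s(p.1, p.2) ≠ s(z, par z)}
  have hEx : ∀ z, l z = 1 → (Ex z).Nonempty := by
    intro z hz
    have hns : z ∉ S := fun h => by
      have := (hl0 _).2 h
      omega
    have hbr := hb z (par z) (hpar z hns).1
    rw [SimpleGraph.isBridge_iff, not_not] at hbr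
    obtain ⟨p⟩ := hbr
    obtain ⟨d, _, hd1, hd2⟩ := p.exists_boundary_dart {v | v ∉ S ∧ top v = z}
      ⟨hns, htop_of_one z hz⟩ (fun h => h.1 (hparS z hz))
    have hadj := d.adj
    rw [SimpleGraph.deleteEdges_adj] at hadj
    refine ⟨(d.fst, d.snd), hadj.1, hd1.1, hd1.2, ?_, ?_⟩
    · by_contra hcon
      push Not at hcon
      exact hd2 hcon
    · exact fun h => hadj.2 (by rw [h]; rfl)
  have hex : ∀ z, ∃ p : V × V, l z = 1 → p ∈ Ex z ∧
      ∀ p' ∈ Ex z, code s(p.1, p.2) ≤ code s(p'.1, p'.2) := by
    intro z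
    by_cases hz : l z = 1
    · obtain ⟨p, hp, hmin⟩ := Set.exists_min_image (Ex z) (fun p => code s(p.1, p.2))
        (Set.toFinite _) (hEx z hz)
      exact ⟨p, fun _ => ⟨hp, hmin⟩⟩
    · exact ⟨(z, z), fun h => absurd h hz⟩
  choose ex hex using hex
  -- two-colouring
  have hcol : ∃ c : V → Bool, ∀ z w, (if l z = 1 ∧ (ex z).2 ∉ S then some (top (ex z).2)
      else none) = some w → c w = !c z := by
    obtain ⟨N, hN⟩ : ∃ N, ∀ z, code s((ex z).1, (ex z).2) < N := by
      obtain ⟨M, hM⟩ := (Set.toFinite (Set.range fun z => code s((ex z).1, (ex z).2))).bddAbove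
      exact ⟨M + 1, fun z => Nat.lt_succ_of_le (hM ⟨z, rfl⟩)⟩
    refine two_color _ (fun z => code s((ex z).1, (ex z).2)) N hN
      (fun z => decide (num (ex z).1 < num (ex z).2)) ?_ ?_
    · intro z w hzw
      split_ifs at hzw with hz
      simp only [Option.some.injEq] at hzw
      obtain ⟨⟨h1, h2, h3, h4, h5⟩, _⟩ := hex z hz.1
      have hw1 : l w = 1 := hzw ▸ htop1 _ hz.2
      have hmem : ((ex z).2, (ex z).1) ∈ Ex w := by
        refine ⟨h1.symm, hz.2, hzw, Or.inr ?_, ?_⟩
        · simp only
          rw [h3, ← hzw]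
          rcases h4 with h4 | h4
          · exact absurd h4 hz.2
          · exact fun h => h4 h.symm
        · intro h
          have hpw := hparS w hw1
          rcases Sym2.eq_iff.1 h with ⟨_, h⟩ | ⟨h, _⟩
          · exact h2 (by rw [← h] at hpw; exact hpw)
          · exact hz.2 (by rw [← h] at hpw; exact hpw)
      have := (hex w hw1).2 _ hmem
      rw [Sym2.eq_swap (a := (ex z).1)]
      exact this
    · intro z w hzw hkey
      split_ifs at hzw with hz
      simp only [Option.some.injEq] at hzw
      obtain ⟨⟨h1, h2, h3, h4, h5⟩, _⟩ := hex z hz.1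
      have hw1 : l w = 1 := hzw ▸ htop1 _ hz.2
      obtain ⟨⟨g1, g2, g3, g4, g5⟩, _⟩ := hex w hw1
      have heq := hcode hkey
      have hzw' : top (ex z).2 ≠ z := by
        rcases h4 with h4 | h4
        · exact absurd h4 hz.2
        · exact h4
      rcases Sym2.eq_iff.1 heq with ⟨k1, k2⟩ | ⟨k1, k2⟩
      · exfalso
        rw [k1, h3] at g3
        exact hzw' (hzw.trans g3.symm)
      · rw [k1, k2]
        refine ⟨?_, ?_⟩
        · rw [if_pos ⟨hw1, h2⟩, h3]
        · have hne : num (ex z).1 ≠ num (ex z).2 := fun h => h1.ne (hnum h)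
          rcases lt_or_gt_of_ne hne with h | h
          · simp [h, h.le]
          · simp [h, h.le]
  obtain ⟨c, hc⟩ := hcol
  have hc' : ∀ z, l z = 1 → (ex z).2 ∉ S → c (top (ex z).2) = !c z := by
    intro z hz hzS
    exact hc z _ (by rw [if_pos ⟨hz, hzS⟩])
  -- the new arcs
  let B : V → V → Prop := fun x y => G.Adj x y ∧
    ((y ∉ S ∧ x = par y ∧ c (top y) = true) ∨ (x ∉ S ∧ y = par x ∧ c (top x) = false) ∨
     (x ∉ S ∧ y ∉ S ∧ c (top x) = true ∧ c (top y) = false) ∨
     (x ∉ S ∧ y ∈ S ∧ y ≠ par x ∧ c (top x) = true) ∨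
     (x ∈ S ∧ y ∉ S ∧ x ≠ par y ∧ c (top y) = false))
  have hlpar : ∀ v, v ∉ S → l v = l (par v) + 1 := fun v hv => (hpar v hv).2
  have hBas : ∀ x y, B x y → ¬ B y x := by
    rintro x y ⟨hxy, h⟩ ⟨_, h'⟩
    rcases h with h | h | h | h | h <;> rcases h' with h' | h' | h' | h' | h'
    · have h1 := hlpar _ h.1
      have h2 := hlpar _ h'.1
      rw [← h.2.1] at h1
      rw [← h'.2.1] at h2
      omega
    · rw [h.2.2] at h'
      simp at h'
    · have := htoppar y h.1 (h.2.1 ▸ h'.2.1)
      rw [← h.2.1] at this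
      rw [this, h.2.2] at h'
      simp at h'
    · exact h'.2.2.1 h.2.1
    · exact h.1 h'.1
    · rw [h.2.2] at h'
      simp at h'
    · have h1 := hlpar _ h.1
      have h2 := hlpar _ h'.1
      rw [← h.2.1] at h1
      rw [← h'.2.1] at h2
      omega
    · have := htoppar x h.1 (h.2.1 ▸ h'.1)
      rw [← h.2.1] at this
      rw [this, h.2.2] at h'
      simp at h'
    · exact h.1 h'.2.1
    · exact h'.2.2.1 h.2.1
    · have := htoppar x h.1 (h'.2.1 ▸ h.2.1)
      rw [← h'.2.1] at this
      rw [this, h.2.2.1] at h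
      simp at h
    · have := htoppar y h.2.1 (h'.2.1 ▸ h.1)
      rw [← h'.2.1] at this
      rw [← this, h.2.2.1] at h
      simp at h
    · rw [h.2.2.2] at h'
      simp at h'
    · exact h.1 h'.2.1
    · exact h.2.1 h'.1
    · exact h.2.2.1 h'.2.1
    · exact h'.1 h.2.1
    · exact h'.1 h.2.1
    · exact h'.1 h.2.1
    · rw [h.2.2.2] at h'
      simp at h'
    · exact h'.1 h.1
    · exact h.2.2.1 h'.2.1
    · exact h'.2.1 h.1
    · rw [h.2.2.2] at h'
      simp at h'
    · exact h.2.1 h'.1
  have hBS : ∀ x y, B x y → x ∉ S ∨ y ∉ S := by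
    rintro x y ⟨_, h | h | h | h | h⟩
    · exact Or.inr h.1
    · exact Or.inl h.1
    · exact Or.inl h.1
    · exact Or.inl h.1
    · exact Or.inr h.2.1
  -- tree paths
  have hdown : ∀ n v, l v = n → v ∉ S → c (top v) = true → ∃ s ∈ S, DW B n s v := by
    intro n
    induction n with
    | zero => intro v hv hvS; exact absurd ((hl0 v).1 hv) hvS
    | succ n ih =>
      intro v hv hvS hcv
      have h1 := hpar v hvS
      have harc : B (par v) v := ⟨h1.1.symm, Or.inl ⟨hvS, rfl, hcv⟩⟩
      by_cases hp : par v ∈ S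
      · exact ⟨par v, hp, (DW.single harc).mono_len (by omega)⟩
      · obtain ⟨s, hs, hd⟩ := ih (par v) (by omega) hp (by rw [htoppar v hvS hp]; exact hcv)
        exact ⟨s, hs, hd.snoc harc⟩
  have hup : ∀ n v, l v = n → v ∉ S → c (top v) = false → ∃ s ∈ S, DW B n v s := by
    intro n
    induction n with
    | zero => intro v hv hvS; exact absurd ((hl0 v).1 hv) hvS
    | succ n ih =>
      intro v hv hvS hcv
      have h1 := hpar v hvS
      have harc : B v (par v) := ⟨h1.1, Or.inr (Or.inl ⟨hvS, rfl, hcv⟩)⟩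
      by_cases hp : par v ∈ S
      · exact ⟨par v, hp, (DW.single harc).mono_len (by omega)⟩
      · obtain ⟨s, hs, hd⟩ := ih (par v) (by omega) hp (by rw [htoppar v hvS hp]; exact hcv)
        exact ⟨s, hs, DW.cons harc hd⟩
  have hlout : ∀ z s, Relation.ReflTransGen B z s → s ∈ S → z ∉ S → c (top z) = true →
      ∃ s' ∈ S, DW B (2 * e + 1 - l z) z s' := by
    intro z s hzs hs
    induction hzs using Relation.ReflTransGen.head_induction_on with
    | refl => intro h; exact absurd hs h
    | head hzz' hrest ih =>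
      rename_i z z'
      intro hzS hcz
      have hez := he z
      have hez' := he z'
      rcases hzz'.2 with h | h | h | h | h
      · obtain ⟨s', hs', hd⟩ := ih h.1 h.2.2
        have := hlpar z' h.1
        rw [← h.2.1] at this
        exact ⟨s', hs', (DW.cons hzz' hd).mono_len (by omega)⟩
      · rw [h.2.2] at hcz
        simp at hcz
      · obtain ⟨s', hs', hd⟩ := hup _ z' rfl h.2.1 h.2.2.2
        exact ⟨s', hs', (DW.cons hzz' hd).mono_len (by omega)⟩
      · exact ⟨z', h.2.1, (DW.single hzz').mono_len (by omega)⟩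
      · exact absurd h.1 hzS
  have hlin : ∀ s z, Relation.ReflTransGen B s z → s ∈ S → z ∉ S → c (top z) = false →
      ∃ s' ∈ S, DW B (2 * e + 1 - l z) s' z := by
    intro s z hzs hs
    induction hzs with
    | refl => intro h; exact absurd hs h
    | tail hrest hzz' ih =>
      rename_i z z'
      intro hzS hcz
      have hez := he z
      have hez' := he z'
      rcases hzz'.2 with h | h | h | h | h
      · rw [h.2.2] at hcz
        simp at hcz
      · obtain ⟨s', hs', hd⟩ := ih h.1 h.2.2
        have := hlpar z h.1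
        rw [← h.2.1] at this
        exact ⟨s', hs', (hd.snoc hzz').mono_len (by omega)⟩
      · obtain ⟨s', hs', hd⟩ := hdown _ z rfl h.1 h.2.2.1
        exact ⟨s', hs', (hd.snoc hzz').mono_len (by omega)⟩
      · exact absurd h.2.1 hzS
      · exact ⟨z, h.1, (DW.single hzz').mono_len (by omega)⟩
  have hout : ∀ z ∈ Good B S, ∃ s ∈ S, DW B (2 * e) s z := by
    rintro z ⟨⟨s, hs, hsz⟩, _⟩
    by_cases hz : z ∈ S
    · exact ⟨z, hz, DW.rfl'⟩
    have h1 := hlpos z hz
    have h2 := he z
    cases hcz : c (top z) with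
    | true =>
      obtain ⟨s, hs, hd⟩ := hdown _ z rfl hz hcz
      exact ⟨s, hs, hd.mono_len (by omega)⟩
    | false =>
      obtain ⟨s, hs, hd⟩ := hlin s z hsz hs hz hcz
      exact ⟨s, hs, hd.mono_len (by omega)⟩
  have hin : ∀ z ∈ Good B S, ∃ s ∈ S, DW B (2 * e) z s := by
    rintro z ⟨_, ⟨s, hs, hsz⟩⟩
    by_cases hz : z ∈ S
    · exact ⟨z, hz, DW.rfl'⟩
    have h1 := hlpos z hz
    have h2 := he z
    cases hcz : c (top z) with
    | false =>
      obtain ⟨s, hs, hd⟩ := hup _ z rfl hz hcz
      exact ⟨s, hs, hd.mono_len (by omega)⟩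
    | true =>
      obtain ⟨s, hs, hd⟩ := hlout z s hsz hs hz hcz
      exact ⟨s, hs, hd.mono_len (by omega)⟩
  -- paths inside a cell
  have hcellout : ∀ n x, l x = n + 1 → x ∉ S → c (top x) = true →
      Relation.ReflTransGen B (top x) x := by
    intro n
    induction n with
    | zero => intro x hx _ _; rw [htop_of_one x hx]
    | succ n ih =>
      intro x hx hxS hcx
      have h1 := hpar x hxS
      have hp : par x ∉ S := fun h => by
        have := (hl0 _).2 h
        omega
      have harc : B (par x) x := ⟨h1.1.symm, Or.inl ⟨hxS, rfl, hcx⟩⟩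
      have := ih (par x) (by omega) hp (by rw [htoppar x hxS hp]; exact hcx)
      rw [htoppar x hxS hp] at this
      exact this.tail harc
  have hcellin : ∀ n x, l x = n + 1 → x ∉ S → c (top x) = false →
      Relation.ReflTransGen B x (top x) := by
    intro n
    induction n with
    | zero => intro x hx _ _; rw [htop_of_one x hx]
    | succ n ih =>
      intro x hx hxS hcx
      have h1 := hpar x hxS
      have hp : par x ∉ S := fun h => by
        have := (hl0 _).2 h
        omega
      have harc : B x (par x) := ⟨h1.1, Or.inr (Or.inl ⟨hxS, rfl, hcx⟩)⟩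
      have := ih (par x) (by omega) hp (by rw [htoppar x hxS hp]; exact hcx)
      rw [htoppar x hxS hp] at this
      exact Relation.ReflTransGen.head harc this
  -- level one vertices are good
  have hgood : ∀ z, l z = 1 → z ∈ Good B S := by
    intro z hz
    have hzS : z ∉ S := fun h => by
      have := (hl0 _).2 h
      omega
    have htz := htop_of_one z hz
    obtain ⟨⟨h1, h2, h3, h4, h5⟩, _⟩ := hex z hz
    have hlx := hlpos _ h2
    obtain ⟨n, hn⟩ : ∃ n, l (ex z).1 = n + 1 := ⟨l (ex z).1 - 1, by omega⟩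
    -- if the second end of the exit is in `S`, it is not the parent of the first end
    have hpne : (ex z).2 ∈ S → (ex z).2 ≠ par (ex z).1 := by
      intro hyS hp
      have h6 := hlpar _ h2
      rw [← hp, (hl0 _).2 hyS] at h6
      have h7 := htop_of_one _ h6
      rw [h3] at h7
      apply h5
      rw [hp, ← h7]
    cases hcz : c z with
    | true =>
      have hcx : c (top (ex z).1) = true := by rw [h3]; exact hcz
      refine ⟨?_, ?_⟩
      · obtain ⟨s, hs, hd⟩ := hdown _ z rfl hzS (by rw [htz]; exact hcz)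
        exact ⟨s, hs, hd.rtg⟩
      · have hzx : Relation.ReflTransGen B z (ex z).1 := by
          have := hcellout n _ hn h2 hcx
          rwa [h3] at this
        by_cases hyS : (ex z).2 ∈ S
        · exact ⟨_, hyS, hzx.tail ⟨h1, Or.inr (Or.inr (Or.inr (Or.inl
            ⟨h2, hyS, hpne hyS, hcx⟩)))⟩⟩
        · have hcy := hc' z hz hyS
          rw [hcz] at hcy
          simp only [Bool.not_true] at hcy
          obtain ⟨s, hs, hd⟩ := hup _ _ rfl hyS hcy
          exact ⟨s, hs, (hzx.tail ⟨h1, Or.inr (Or.inr (Or.inl ⟨h2, hyS, hcx, hcy⟩))⟩).trans hd.rtg⟩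
    | false =>
      have hcx : c (top (ex z).1) = false := by rw [h3]; exact hcz
      refine ⟨?_, ?_⟩
      · have hzx : Relation.ReflTransGen B (ex z).1 z := by
          have := hcellin n _ hn h2 hcx
          rwa [h3] at this
        by_cases hyS : (ex z).2 ∈ S
        · exact ⟨_, hyS, Relation.ReflTransGen.head ⟨h1.symm, Or.inr (Or.inr (Or.inr (Or.inr
            ⟨hyS, h2, hpne hyS, hcx⟩)))⟩ hzx⟩
        · have hcy := hc' z hz hyS
          rw [hcz] at hcy
          simp only [Bool.not_false] at hcy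
          obtain ⟨s, hs, hd⟩ := hdown _ _ rfl hyS hcy
          exact ⟨s, hs, hd.rtg.trans (Relation.ReflTransGen.head
            ⟨h1.symm, Or.inr (Or.inr (Or.inl ⟨hyS, h2, hcy, hcx⟩))⟩ hzx)⟩
      · obtain ⟨s, hs, hd⟩ := hup _ z rfl hzS (by rw [htz]; exact hcz)
        exact ⟨s, hs, hd.rtg⟩
  refine ⟨Good B S, fun x y => A x y ∨ (B x y ∧ x ∈ Good B S ∧ y ∈ Good B S), ?_,
    subset_Good, ?_⟩
  · have := hS.extend (B := B) (fun x y h => h.1) hBas hBS hout hin
    have hD : 2 * e + D + 2 * e = D + 4 * e := by omega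
    rw [hD] at this
    exact this
  · -- heights
    have hiterdw : ∀ i v, i ≤ l v → DW G.Adj i v (par^[i] v) := by
      intro i
      induction i with
      | zero => intro v _; exact DW.rfl'
      | succ i ih =>
        intro v hi
        have h1 := ih v (by omega)
        have h2 := hiter v i (by omega)
        have hns : par^[i] v ∉ S := fun h => by
          have := (hl0 _).2 h
          omega
        rw [Function.iterate_succ_apply']
        exact h1.snoc (hpar _ hns).1
    intro v
    by_cases hv : v ∈ S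
    · rw [hgt_of_mem (subset_Good hv)]; omega
    · have h1 := hlpos v hv
      have h2 := he v
      have h3 := hiterdw (l v - 1) v (by omega)
      have h4 : hgt G.Adj (Good B S) v ≤ l v - 1 := hgt_le ⟨_, hgood _ (htop1 v hv), h3⟩
      omega

end Pool.Agent.Lib.MP_1cd210_co
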