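import Mathlib

/-!
# Oriented diameter: definitions
-/

namespace Pool.Agent.Lib.MP_1cd210_co

/-- An orientation of the graph `G`: every edge gets exactly one of its two directions,
and there are no other arcs. -/
structure IsOrientation {V : Type} (G : SimpleGraph V) (A : V → V → Prop) : Prop where
  adj : ∀ x y, A x y → G.Adj x y
  total : ∀ x y, G.Adj x y → A x y ∨ A y x
  asymm : ∀ x y, A x y → ¬ A y x

/-- `DW A n x y`: there is a directed walk with at most `n` arcs from `x` to `y` in the
digraph with arc relation `A`; that is, the directed distance from `x` to `y` is at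
most `n`. -/
def DW {V : Type} (A : V → V → Prop) : ℕ → V → V → Prop
  | 0, x, y => x = y
  | n + 1, x, y => x = y ∨ ∃ z, A x z ∧ DW A n z y

/-- The graph `G` has a (strong) orientation of diameter at most `k`. -/
def OrientedDiamLE {V : Type} (G : SimpleGraph V) (k : ℕ) : Prop :=
  ∃ A : V → V → Prop, IsOrientation G A ∧ ∀ x y, DW A k x y

/-- No edge of `G` is a bridge (cut-edge). -/
def Bridgeless {V : Type} (G : SimpleGraph V) : Prop :=
  ∀ x y, G.Adj x y → ¬ G.IsBridge s(x, y)

/-- The oriented diameter of `G`: the smallest diameter of a strong orientation of `G`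
(only meaningful if `G` has a strong orientation). -/
noncomputable def orientedDiam {V : Type} (G : SimpleGraph V) : ℕ :=
  sInf {k | OrientedDiamLE G k}

/-- The maximum oriented diameter of a finite connected graph of diameter `d` without
cut-edges. -/
noncomputable def maxOrientedDiam (d : ℕ) : ℕ :=
  sSup {k | ∃ (n : ℕ) (G : SimpleGraph (Fin n)), G.Connected ∧ Bridgeless G ∧ G.diam = d ∧
    orientedDiam G = k}

end Pool.Agent.Lib.MP_1cd210_co
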