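import Pool.Agent.Lib.MP_1cd210_co.Upper

/-!
# Two-sided bounds for the maximum oriented diameter
-/

namespace Pool.Agent.Lib.MP_1cd210_co

theorem orientedDiam_spec {V : Type} [Finite V] {G : SimpleGraph V} (hG : G.Connected)
    (hb : Bridgeless G) {d : ℕ} (hd1 : 1 ≤ d) (hdiam : G.diam = d) :
    OrientedDiamLE G (orientedDiam G) ∧
      2 * orientedDiam G ≤ d ^ 2 + 34 * d + 20 * (d * Nat.log 3 d) := by
  obtain ⟨k, hk, hk2⟩ := upper hG hb hd1 hdiam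
  have h1 : OrientedDiamLE G (orientedDiam G) :=
    Nat.sInf_mem (s := {k | OrientedDiamLE G k}) ⟨k, hk⟩
  have h2 : orientedDiam G ≤ k := Nat.sInf_le (s := {k | OrientedDiamLE G k}) hk
  exact ⟨h1, by omega⟩

theorem bounds_of_lower {d : ℕ} (hd1 : 1 ≤ d)
    (hlow : ∃ (n : ℕ) (G : SimpleGraph (Fin n)), G.Connected ∧ Bridgeless G ∧ G.diam = d ∧
      ∀ k, OrientedDiamLE G k → d ^ 2 + 2 * d ≤ 2 * k) :
    (d : ℝ) ^ 2 / 2 + d ≤ maxOrientedDiam d ∧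
      (maxOrientedDiam d : ℝ) ≤ (d : ℝ) ^ 2 / 2 + 10 * d * Real.logb 3 d + 17 * d := by
  obtain ⟨M, hM⟩ : ∃ M, M = d ^ 2 + 34 * d + 20 * (d * Nat.log 3 d) := ⟨_, rfl⟩
  have hbd : ∀ k ∈ {k | ∃ (n : ℕ) (G : SimpleGraph (Fin n)), G.Connected ∧ Bridgeless G ∧
      G.diam = d ∧ orientedDiam G = k}, k ≤ M / 2 := by
    rintro k ⟨n, G, hG, hb, hdiam, rfl⟩
    have := (orientedDiam_spec hG hb hd1 hdiam).2
    omega
  obtain ⟨n, G, hG, hb, hdiam, hlow⟩ := hlow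
  have hmem : orientedDiam G ∈ {k | ∃ (n : ℕ) (G : SimpleGraph (Fin n)), G.Connected ∧
      Bridgeless G ∧ G.diam = d ∧ orientedDiam G = k} := ⟨n, G, hG, hb, hdiam, rfl⟩
  have h1 : orientedDiam G ≤ maxOrientedDiam d := le_csSup ⟨M / 2, hbd⟩ hmem
  have h2 : maxOrientedDiam d ≤ M / 2 := csSup_le ⟨_, hmem⟩ hbd
  have h3 := hlow _ (orientedDiam_spec hG hb hd1 hdiam).1
  constructor
  · have h4 : d ^ 2 + 2 * d ≤ 2 * maxOrientedDiam d := by omega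
    have h5 : (d : ℝ) ^ 2 + 2 * d ≤ 2 * maxOrientedDiam d := by exact_mod_cast h4
    linarith
  · have h4 : 2 * maxOrientedDiam d ≤ d ^ 2 + 34 * d + 20 * (d * Nat.log 3 d) := by omega
    have h5 : 2 * (maxOrientedDiam d : ℝ) ≤ (d : ℝ) ^ 2 + 34 * d + 20 * (d * Nat.log 3 d) := by
      exact_mod_cast h4
    have h6 : (Nat.log 3 d : ℝ) ≤ Real.logb 3 d := by
      rw [Real.le_logb_iff_rpow_le (by norm_num) (by exact_mod_cast hd1), Real.rpow_natCast]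
      exact_mod_cast Nat.pow_log_le_self 3 (by omega)
    have h7 : (0 : ℝ) ≤ d := Nat.cast_nonneg d
    nlinarith [mul_le_mul_of_nonneg_left h6 h7]

end Pool.Agent.Lib.MP_1cd210_co
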