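import Pool.Agent.Lib.MP_1cd210_co.CT

/-!
# The hub round
-/

namespace Pool.Agent.Lib.MP_1cd210_co

variable {V : Type} {A : V → V → Prop} {S : Set V} {D e : ℕ}

theorem State.mono_D {G : SimpleGraph V} {D' : ℕ} (h : State G S A D) (hD : D ≤ D') :
    State G S A D' :=
  ⟨h.adj, h.asymm, h.mem, fun x hx y hy => (h.diam x hx y hy).mono_len hD⟩

theorem hub_round {G : SimpleGraph V} (hG : G.Connected) {d r m : ℕ} {w q0 : V}
    (hd : ∀ x y, DW G.Adj d x y) (hr : ∀ v, ∃ g, ¬ DW G.Adj (r - 1) v g)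
    (hw : ∀ g, DW G.Adj r g w) (hwS : w ∈ S) (hrd : r ≤ d)
    (hS : State G S A D) (he : ∀ v, hgt G.Adj S v ≤ e) (hq0 : hgt G.Adj S q0 = e)
    (hm : 1 ≤ m) (h3m : 3 * m + d ≤ 2 * e) :
    ∃ S' A', State G S' A' (D + 10 * d) ∧ S ⊆ S' ∧ ∀ v, hgt G.Adj S' v ≤ e - m := by
  classical
  set l : V → ℕ := hgt G.Adj S with hl
  have hne : S.Nonempty := ⟨w, hwS⟩
  have hco : ∀ v, CoR G.Adj S v := CoR_of_connected hG hne
  have hl0 : ∀ v, l v = 0 ↔ v ∈ S := fun v =>
    ⟨fun h => mem_of_hgt (hco v) h, fun h => hgt_of_mem h⟩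
  have hsymm : ∀ x y, G.Adj x y → G.Adj y x := fun x y h => h.symm
  have hldw : ∀ {n x y}, DW G.Adj n x y → l x ≤ n + l y := fun h => hgt_dw h (hco _)
  have hldw' : ∀ {n x y}, DW G.Adj n x y → l y ≤ n + l x := fun h => hldw (h.symm hsymm)
  have her : e ≤ r := by
    have h1 := hldw (hw q0)
    have h2 := (hl0 w).2 hwS
    omega
  -- parents
  have hpar : ∀ v, ∃ u, v ∉ S → G.Adj v u ∧ l v = l u + 1 := by
    intro v
    by_cases hv : v ∈ S
    · exact ⟨v, fun h => absurd hv h⟩
    · obtain ⟨u, h1, _, h2⟩ := hgt_step (hco v) hv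
      exact ⟨u, fun _ => ⟨h1, h2⟩⟩
  choose par hpar using hpar
  have hiter : ∀ v i, i ≤ l v → l (par^[i] v) = l v - i := by
    intro v i
    induction i with
    | zero => intro _; simp
    | succ i ih =>
      intro hi
      have h1 := ih (by omega)
      have hns : par^[i] v ∉ S := fun h => by
        have := (hl0 _).2 h
        omega
      rw [Function.iterate_succ_apply']
      have := (hpar _ hns).2
      omega
  have hiteradj : ∀ v i, i < l v → G.Adj (par^[i] v) (par^[i + 1] v) := by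
    intro v i hi
    have h1 := hiter v i hi.le
    have hns : par^[i] v ∉ S := fun h => by
      have := (hl0 _).2 h
      omega
    rw [Function.iterate_succ_apply']
    exact (hpar _ hns).1
  -- the relation inside `O`
  let RO : V → V → Prop := fun x y => G.Adj x y ∧ m < l x ∧ m < l y
  have hROsymm : ∀ x y, RO x y → RO y x := fun x y h => ⟨h.1.symm, h.2.2, h.2.1⟩
  have hROadj : ∀ x y, RO x y → G.Adj x y := fun x y h => h.1
  have hiterRO : ∀ v i, i + m < l v → DW RO i v (par^[i] v) := by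
    intro v i
    induction i with
    | zero => intro _; exact DW.rfl'
    | succ i ih =>
      intro hi
      refine (ih (by omega)).snoc ⟨hiteradj v i (by omega), ?_, ?_⟩
      · rw [hiter v i (by omega)]; omega
      · rw [hiter v (i + 1) (by omega)]; omega
  have hiterdw : ∀ v i, i ≤ l v → DW G.Adj i v (par^[i] v) := by
    intro v i
    induction i with
    | zero => intro _; exact DW.rfl'
    | succ i ih =>
      intro hi
      exact (ih (by omega)).snoc (hiteradj v i (by omega))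
  -- the geodesic of `q0`
  obtain ⟨v, hv⟩ : ∃ v : ℕ → V, v = fun i => par^[e - i] q0 := ⟨_, rfl⟩
  have hve : v e = q0 := by simp [hv]
  have hvl : ∀ i, i ≤ e → l (v i) = i := by
    intro i hi
    have := hiter q0 (e - i) (by omega)
    rw [hq0] at this
    simp only [hv]
    omega
  have hvadj : ∀ i, i + 1 ≤ e → G.Adj (v (i + 1)) (v i) := by
    intro i hi
    have := hiteradj q0 (e - (i + 1)) (by omega)
    have h1 : e - (i + 1) + 1 = e - i := by omega
    rw [h1] at this
    simpa [hv] using this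
  have hvdw : ∀ a i, i + a ≤ e → DW G.Adj a (v (i + a)) (v i) := by
    intro a
    induction a with
    | zero => intro i _; exact DW.rfl'
    | succ a ih =>
      intro i hi
      have h1 := hvadj (i + a) (by omega)
      exact DW.cons h1 (ih i (by omega))
  have hvdw' : ∀ i j, i ≤ j → j ≤ e → DW G.Adj (j - i) (v j) (v i) := by
    intro i j hij hj
    have := hvdw (j - i) i (by omega)
    rwa [show i + (j - i) = j by omega] at this
  have hvRO : ∀ i j, m < i → i ≤ j → j ≤ e → DW RO (j - i) (v j) (v i) := by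
    intro i j hi hij hj
    obtain ⟨a, rfl⟩ := Nat.exists_eq_add_of_le hij
    clear hij
    rw [show i + a - i = a by omega]
    induction a with
    | zero => exact DW.rfl'
    | succ a ih =>
      refine DW.cons ⟨hvadj (i + a) (by omega), ?_, ?_⟩ (ih (by omega))
      · rw [hvl _ (by omega)]; omega
      · rw [hvl _ (by omega)]; omega
  have hme : m < e := by
    have : e ≤ d := le_trans her hrd
    omega
  have hed : e ≤ d := le_trans her hrd
  -- the set `P'` and the point `g`
  let P : Set V := {x | ∃ i, 1 ≤ i ∧ i ≤ m ∧ x = v i}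
  obtain ⟨g, hg⟩ := hr (v 1)
  have hgm : ¬ DW G.Adj (d + m - e) (v m) g := by
    intro h
    have h1 := (hvdw' 1 m hm hme.le).symm hsymm
    exact hg ((h1.trans h).mono_len (by omega))
  let RP : V → V → Prop := fun x y => G.Adj x y ∧ x ∉ P ∧ y ∉ P
  have hRPsymm : ∀ x y, RP x y → RP y x := fun x y h => ⟨h.1.symm, h.2.2, h.2.1⟩
  have hqg : DW RP d q0 g := by
    rcases (hd q0 g).split P with h | ⟨u, ⟨i, hi1, him, rfl⟩, a, b, hab, h1, h2⟩
    · exact h
    · exfalso
      have h3 := hldw h1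
      rw [hvl i (by omega)] at h3
      have h4 := (hvdw' i m him hme.le).trans h2
      have h5 : l q0 = e := hq0
      exact hgm (h4.mono_len (by omega))
  have hgw : DW RP r g w := by
    rcases (hw g).split P with h | ⟨u, ⟨i, hi1, him, rfl⟩, a, b, hab, h1, h2⟩
    · exact h
    · exfalso
      have h3 := hldw h2
      rw [hvl i (by omega), (hl0 w).2 hwS] at h3
      have h4 := h1.trans (hvdw' 1 i hi1 (by omega))
      exact hg ((h4.symm hsymm).mono_len (by omega))
  have hvP : ∀ i, m < i → i ≤ e → v i ∉ P := by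
    rintro i hi hie ⟨i', h1, h2, h3⟩
    have h4 := hvl i hie
    have h5 := hvl i' (by omega)
    rw [h3] at h4
    omega
  have hcoq : CoR RP S q0 := ⟨d + r, w, hwS, hqg.trans hgw⟩
  have hROP : ∀ i, m < i → i ≤ e → DW RP (e - i) (v i) q0 := by
    intro i hi hie
    have : ∀ a, i + a ≤ e → DW RP a (v i) (v (i + a)) := by
      intro a
      induction a with
      | zero => intro _; exact DW.rfl'
      | succ a ih =>
        intro ha
        exact (ih (by omega)).snoc ⟨(hvadj (i + a) (by omega)).symm, hvP _ (by omega) (by omega),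
          hvP _ (by omega) (by omega)⟩
    have h := this (e - i) (by omega)
    rwa [show i + (e - i) = e by omega, hve] at h
  have hcov : ∀ i, m < i → i ≤ e → CoR RP S (v i) := fun i hi hie =>
    CoR.dw (hROP i hi hie) hcoq
  obtain ⟨j, hj, hjmin⟩ := Finset.exists_min_image (Finset.Icc (m + 1) e)
    (fun i => hgt RP S (v i)) ⟨e, Finset.mem_Icc.2 ⟨hme, le_refl e⟩⟩
  rw [Finset.mem_Icc] at hj
  obtain ⟨b, hb⟩ : ∃ b, b = v j := ⟨_, rfl⟩
  obtain ⟨k, hk⟩ : ∃ k, k = hgt RP S b := ⟨_, rfl⟩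
  have hlb : l b = j := by rw [hb]; exact hvl j hj.2
  have hcob : CoR RP S b := by rw [hb]; exact hcov j (by omega) hj.2
  have hkdr : k ≤ d + r := by
    have h1 := hjmin e (Finset.mem_Icc.2 ⟨hme, le_refl e⟩)
    rw [← hb, ← hk, hve] at h1
    exact h1.trans (hgt_le ⟨w, hwS, hqg.trans hgw⟩)
  -- the path `Pi`
  have hppar : ∀ x, ∃ y, CoR RP S x → x ∉ S → RP x y ∧ CoR RP S y ∧
      hgt RP S x = hgt RP S y + 1 := by
    intro x
    by_cases hx : CoR RP S x ∧ x ∉ S
    · obtain ⟨y, h1, h2, h3⟩ := hgt_step hx.1 hx.2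
      exact ⟨y, fun _ _ => ⟨h1, h2, h3⟩⟩
    · exact ⟨x, fun h1 h2 => absurd ⟨h1, h2⟩ hx⟩
  choose ppar hppar using hppar
  obtain ⟨p, hp⟩ : ∃ p : ℕ → V, p = fun t => ppar^[t] b := ⟨_, rfl⟩
  have hp0 : p 0 = b := by simp [hp]
  have hpk : ∀ t, t ≤ k → CoR RP S (p t) ∧ hgt RP S (p t) = k - t := by
    intro t
    induction t with
    | zero => intro _; rw [hp0, ← hk]; exact ⟨hcob, by simp⟩
    | succ t ih =>
      intro ht
      obtain ⟨h1, h2⟩ := ih (by omega)
      have hns : p t ∉ S := fun h => by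
        have := hgt_of_mem (R := RP) h
        omega
      have h3 := hppar (p t) h1 hns
      have h4 : p (t + 1) = ppar (p t) := by
        simp only [hp, Function.iterate_succ_apply']
      rw [h4]
      exact ⟨h3.2.1, by omega⟩
  have hpns : ∀ t, t < k → p t ∉ S := by
    intro t ht h
    have h1 := (hpk t ht.le).2
    have := hgt_of_mem (R := RP) h
    omega
  have hpRP : ∀ t, t < k → RP (p t) (p (t + 1)) := by
    intro t ht
    have h4 : p (t + 1) = ppar (p t) := by
      simp only [hp, Function.iterate_succ_apply']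
    rw [h4]
    exact (hppar (p t) (hpk t ht.le).1 (hpns t ht)).1
  have hpkS : p k ∈ S := by
    obtain ⟨h1, h2⟩ := hpk k le_rfl
    exact mem_of_hgt h1 (by omega)
  let Q : Set V := {x | ∃ t, t ≤ k ∧ x = p t}
  have hbQ : b ∈ Q := ⟨0, Nat.zero_le _, hp0.symm⟩
  have hvQ : ∀ i, 1 ≤ i → i < j → v i ∉ Q := by
    rintro i hi hij ⟨t, ht, hvt⟩
    have hli := hvl i (by omega)
    rcases lt_or_eq_of_le ht with ht' | rfl
    · by_cases him : i ≤ m
      · exact (hpRP t ht').2.1 (hvt ▸ ⟨i, hi, him, rfl⟩)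
      · have h1 := hjmin i (Finset.mem_Icc.2 ⟨by omega, by omega⟩)
        rw [← hb, ← hk, hvt, (hpk t ht).2] at h1
        have h2 : t = 0 := by
          have : 0 < k := by omega
          omega
        rw [h2, hp0] at hvt
        rw [hvt, hlb] at hli
        omega
    · have := (hl0 _).2 hpkS
      rw [← hvt, hli] at this
      omega
  -- the height `δ` inside `O`
  set δ : V → ℕ := hgt RO {b} with hδ
  obtain ⟨L, hL⟩ : ∃ L, L = (e - (m + 1)) + d + (e - j) := ⟨_, rfl⟩
  have hcoROv : ∀ i, m < i → i ≤ j → CoR RO {b} (v i) ∧ δ (v i) = j - i := by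
    intro i hi hij
    have h1 : DW RO (j - i) (v i) b := by
      rw [hb]
      exact (hvRO i j hi hij hj.2).symm hROsymm
    have hc : CoR RO {b} (v i) := ⟨_, b, rfl, h1⟩
    refine ⟨hc, le_antisymm (hgt_le ⟨b, rfl, h1⟩) ?_⟩
    obtain ⟨t, ht, h2⟩ := hgt_spec hc
    have ht' : t = b := ht
    subst ht'
    have h3 := hldw' (h2.mono hROadj)
    rw [hlb, hvl i (by omega)] at h3
    simp only [hδ]
    omega
  -- new arcs
  let B : V → V → Prop := fun x y => (∃ t, t < k ∧ x = p t ∧ y = p (t + 1)) ∨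
    (G.Adj x y ∧ ¬ (x ∈ Q ∧ y ∈ Q) ∧ ((l y = l x + 1 ∧ l y ≤ m) ∨
      (l x = m ∧ l y = m + 1 ∧ CoR RO {b} y ∧ δ y ≤ L) ∨
      (m < l x ∧ m < l y ∧ CoR RO {b} y ∧ δ x = δ y + 1 ∧ δ x ≤ L)))
  have hBadj : ∀ x y, B x y → G.Adj x y := by
    rintro x y (⟨t, ht, rfl, rfl⟩ | h)
    · exact (hpRP t ht).1
    · exact h.1
  have hBas : ∀ x y, B x y → ¬ B y x := by
    rintro x y (⟨t, ht, hx, hy⟩ | h) (⟨t', ht', hy', hx'⟩ | h')
    · have h1 := (hpk t ht.le).2
      have h2 := (hpk (t + 1) ht).2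
      have h3 := (hpk t' ht'.le).2
      have h4 := (hpk (t' + 1) ht').2
      rw [← hx] at h1
      rw [← hy] at h2
      rw [← hy'] at h3
      rw [← hx'] at h4
      omega
    · exact h'.2.1 ⟨⟨t + 1, ht, hy⟩, ⟨t, ht.le, hx⟩⟩
    · exact h.2.1 ⟨⟨t' + 1, ht', hx'⟩, ⟨t', ht'.le, hy'⟩⟩
    · rcases h.2.2 with h | h | h <;> rcases h'.2.2 with h' | h' | h' <;> omega
  have hBS : ∀ x y, B x y → x ∉ S ∨ y ∉ S := by
    rintro x y (⟨t, ht, rfl, rfl⟩ | h)
    · exact Or.inl (hpns t ht)
    · rw [← hl0, ← hl0]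
      rcases h.2.2 with h | h | h <;> omega
  -- the directed path from `S` to `b`
  have hA0 : ∀ i, i ≤ j → DW B i (v 0) (v i) := by
    intro i
    induction i with
    | zero => intro _; exact DW.rfl'
    | succ i ih =>
      intro hi
      refine (ih (by omega)).snoc (Or.inr ⟨(hvadj i (by omega)).symm, ?_, ?_⟩)
      · rintro ⟨h1, h2⟩
        rcases Nat.eq_zero_or_pos i with rfl | hi0
        · exact hvQ 1 le_rfl (by omega) h2
        · exact hvQ i hi0 (by omega) h1
      · have h1 := hvl i (by omega)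
        have h2 := hvl (i + 1) (by omega)
        rcases lt_trichotomy i m with him | him | him
        · exact Or.inl ⟨by omega, by omega⟩
        · obtain ⟨h3, h4⟩ := hcoROv (i + 1) (by omega) hi
          exact Or.inr (Or.inl ⟨by omega, by omega, h3, by omega⟩)
        · obtain ⟨h3, h4⟩ := hcoROv (i + 1) (by omega) hi
          obtain ⟨h5, h6⟩ := hcoROv i him (by omega)
          exact Or.inr (Or.inr ⟨by omega, by omega, h3, by omega, by omega⟩)
  have hv0S : v 0 ∈ S := (hl0 _).1 (hvl 0 (by omega))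
  have hPiw : ∀ t a, t + a ≤ k → DW B a (p t) (p (t + a)) := by
    intro t a
    induction a with
    | zero => intro _; exact DW.rfl'
    | succ a ih =>
      intro ha
      exact (ih (by omega)).snoc (Or.inl ⟨t + a, by omega, rfl, rfl⟩)
  have hQin : ∀ x ∈ Q, ∃ s ∈ S, DW B k x s := by
    rintro x ⟨t, ht, rfl⟩
    have := hPiw t (k - t) (by omega)
    rw [show t + (k - t) = k by omega] at this
    exact ⟨p k, hpkS, this.mono_len (by omega)⟩
  have hQout : ∀ x ∈ Q, ∃ s ∈ S, DW B (j + k) s x := by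
    rintro x ⟨t, ht, rfl⟩
    have h1 := hPiw 0 t (by omega)
    rw [zero_add, hp0, hb] at h1
    exact ⟨v 0, hv0S, ((hA0 j le_rfl).trans h1).mono_len (by omega)⟩
  -- out-distances in the ball
  have hballout : ∀ n x, l x = n → n ≤ m → ∃ s ∈ S, DW B (j + k + n) s x := by
    intro n
    induction n with
    | zero => intro x hx _; exact ⟨x, (hl0 x).1 hx, DW.rfl'⟩
    | succ n ih =>
      intro x hx hn
      by_cases hxQ : x ∈ Q
      · obtain ⟨s, hs, hd⟩ := hQout x hxQ
        exact ⟨s, hs, hd.mono_len (by omega)⟩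
      have hxS : x ∉ S := fun h => by
        have := (hl0 _).2 h
        omega
      obtain ⟨h1, h2⟩ := hpar x hxS
      obtain ⟨s, hs, hd⟩ := ih (par x) (by omega) (by omega)
      exact ⟨s, hs, (hd.snoc (Or.inr ⟨h1.symm, fun h => hxQ h.2,
        Or.inl ⟨by omega, by omega⟩⟩)).mono_len (by omega)⟩
  -- out-distances in `O`
  have hOout : ∀ s x, Relation.ReflTransGen B s x → s ∈ S → m < l x → x ∉ Q →
      CoR RO {b} x ∧ δ x ≤ L ∧ ∃ s' ∈ S, DW B (j + k + (m + 1) + (L - δ x)) s' x := by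
    intro s x hsx hs
    induction hsx with
    | refl => intro h; have := (hl0 s).2 hs; omega
    | tail hrest hux ih =>
      rename_i u x
      intro hlx hxQ
      rcases hux with ⟨t, ht, h1, h2⟩ | h
      · exact absurd ⟨t + 1, ht, h2⟩ hxQ
      · have harc : B u x := Or.inr h
        rcases h.2.2 with h | h | h
        · omega
        · obtain ⟨s', hs', hd⟩ := hballout m u h.1 le_rfl
          exact ⟨h.2.2.1, h.2.2.2, s', hs', (hd.snoc harc).mono_len (by omega)⟩
        · refine ⟨h.2.2.1, by omega, ?_⟩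
          by_cases huQ : u ∈ Q
          · obtain ⟨s', hs', hd⟩ := hQout u huQ
            exact ⟨s', hs', (hd.snoc harc).mono_len (by omega)⟩
          · obtain ⟨_, h3, s', hs', hd⟩ := ih h.1 huQ
            exact ⟨s', hs', (hd.snoc harc).mono_len (by omega)⟩
  -- in-distances in `O`
  have hOin : ∀ n x, CoR RO {b} x → m < l x → δ x = n → n ≤ L → ∃ s ∈ S, DW B (k + n) x s := by
    intro n
    induction n with
    | zero =>
      intro x hx _ h0 _
      have : x ∈ ({b} : Set V) := mem_of_hgt hx h0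
      have hxb : x = b := this
      subst hxb
      exact hQin _ hbQ
    | succ n ih =>
      intro x hx hlx hn hnL
      by_cases hxQ : x ∈ Q
      · obtain ⟨s, hs, hd⟩ := hQin x hxQ
        exact ⟨s, hs, hd.mono_len (by omega)⟩
      have hxb : x ∉ ({b} : Set V) := fun h => by
        have := hgt_of_mem (R := RO) h
        simp only [hδ] at hn
        omega
      obtain ⟨y, h1, h2, h3⟩ := hgt_step hx hxb
      have h3' : δ x = δ y + 1 := h3
      obtain ⟨s, hs, hd⟩ := ih y h2 h1.2.2 (by omega) (by omega)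
      have harc : B x y := Or.inr ⟨h1.1, fun h => hxQ h.1, Or.inr (Or.inr
        ⟨h1.2.1, h1.2.2, h2, h3', by omega⟩)⟩
      exact ⟨s, hs, (DW.cons harc hd).mono_len (by omega)⟩
  -- in-distances in the ball
  have hballin : ∀ x s, Relation.ReflTransGen B x s → s ∈ S → x ∉ S → l x ≤ m →
      ∃ s' ∈ S, DW B (k + L + (m + 1 - l x)) x s' := by
    intro x s hxs hs
    induction hxs using Relation.ReflTransGen.head_induction_on with
    | refl => intro h; exact absurd hs h
    | head hxx' hrest ih =>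
      rename_i x x'
      intro hxS hlx
      by_cases hxQ : x ∈ Q
      · obtain ⟨s, hs, hd⟩ := hQin x hxQ
        exact ⟨s, hs, hd.mono_len (by omega)⟩
      have harc := hxx'
      rcases hxx' with ⟨t, ht, h1, h2⟩ | h
      · exact absurd ⟨t, ht.le, h1⟩ hxQ
      · rcases h.2.2 with h | h | h
        · have hx'S : x' ∉ S := fun h' => by
            have := (hl0 _).2 h'
            omega
          obtain ⟨s', hs', hd⟩ := ih hx'S h.2
          exact ⟨s', hs', (DW.cons harc hd).mono_len (by omega)⟩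
        · obtain ⟨s', hs', hd⟩ := hOin _ x' h.2.2.1 (by omega) rfl h.2.2.2
          exact ⟨s', hs', (DW.cons harc hd).mono_len (by omega)⟩
        · omega
  have hout : ∀ z ∈ Good B S, ∃ s ∈ S, DW B (j + k + (m + 1) + L) s z := by
    rintro z ⟨⟨s, hs, hsz⟩, _⟩
    by_cases hzQ : z ∈ Q
    · obtain ⟨s, hs, hd⟩ := hQout z hzQ
      exact ⟨s, hs, hd.mono_len (by omega)⟩
    by_cases hlz : l z ≤ m
    · obtain ⟨s, hs, hd⟩ := hballout _ z rfl hlz
      exact ⟨s, hs, hd.mono_len (by omega)⟩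
    · obtain ⟨_, _, s, hs, hd⟩ := hOout s z hsz hs (by omega) hzQ
      exact ⟨s, hs, hd.mono_len (by omega)⟩
  have hin : ∀ z ∈ Good B S, ∃ s ∈ S, DW B (k + L + m) z s := by
    rintro z ⟨⟨s0, hs0, hsz0⟩, ⟨s, hs, hsz⟩⟩
    by_cases hzS : z ∈ S
    · exact ⟨z, hzS, DW.rfl'⟩
    by_cases hzQ : z ∈ Q
    · obtain ⟨s, hs, hd⟩ := hQin z hzQ
      exact ⟨s, hs, hd.mono_len (by omega)⟩
    by_cases hlz : l z ≤ m
    · have h1 : 1 ≤ l z := by
        have := (hl0 z).not.2 hzS
        omega
      obtain ⟨s, hs, hd⟩ := hballin z s hsz hs hzS hlz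
      exact ⟨s, hs, hd.mono_len (by omega)⟩
    · obtain ⟨h1, h2, _⟩ := hOout s0 z hsz0 hs0 (by omega) hzQ
      obtain ⟨s, hs, hd⟩ := hOin _ z h1 (by omega) rfl h2
      exact ⟨s, hs, hd.mono_len (by omega)⟩
  refine ⟨Good B S, fun x y => A x y ∨ (B x y ∧ x ∈ Good B S ∧ y ∈ Good B S),
    (hS.extend hBadj hBas hBS hout hin).mono_D (by omega), subset_Good, ?_⟩
  -- coverage
  intro x
  by_cases hlx : l x ≤ e - m
  · obtain ⟨t, ht, hdt⟩ := hgt_spec (hco x)
    exact (hgt_le ⟨t, subset_Good ht, hdt⟩).trans hlx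
  · have hex := he x
    obtain ⟨a, ha⟩ : ∃ a, a = l x := ⟨_, rfl⟩
    have hex' : a ≤ e := ha ▸ hex
    -- levels `m` and `m + 1` on the geodesic of `x`
    have hu1 := hiter x (a - m) (by omega)
    have hu2 := hiter x (a - (m + 1)) (by omega)
    have hadj := hiteradj x (a - (m + 1)) (by omega)
    rw [show a - (m + 1) + 1 = a - m by omega] at hadj
    have hdw1 := hiterdw x (a - m) (by omega)
    have hdw2 := (hiterRO x (a - (m + 1)) (by omega)).symm hROsymm
    obtain ⟨u, hu⟩ : ∃ u, u = par^[a - m] x := ⟨_, rfl⟩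
    obtain ⟨y, hy⟩ : ∃ y, y = par^[a - (m + 1)] x := ⟨_, rfl⟩
    rw [← hu] at hu1 hdw1 hadj
    rw [← hy] at hu2 hdw2 hadj
    have hlu : l u = m := by omega
    have hly : l y = m + 1 := by omega
    -- the walk from `x` to `q0`
    have hxq : DW RO d x q0 := by
      rcases (hd x q0).split {z | l z ≤ m} with h | ⟨z, hz, a', b', hab, h1, h2⟩
      · refine h.mono fun x y h => ⟨h.1, ?_, ?_⟩
        · have := h.2.1
          simp only [Set.mem_ofPred_eq] at this
          omega
        · have := h.2.2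
          simp only [Set.mem_ofPred_eq] at this
          omega
      · exfalso
        have hz' : l z ≤ m := hz
        have h3 := hldw h1
        have h4 := hldw' h2
        have h5 : l q0 = e := hq0
        omega
    have hqb : DW RO (e - j) q0 b := by
      have := hvRO j e (by omega) hj.2 le_rfl
      rwa [hve, ← hb] at this
    have hyb := (hdw2.trans hxq).trans hqb
    have hyc : CoR RO {b} y := ⟨_, b, rfl, hyb⟩
    have hyδ : δ y ≤ L := by
      have h9 : δ y ≤ _ := hgt_le ⟨b, rfl, hyb⟩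
      omega
    have hug : u ∈ Good B S := by
      obtain ⟨s, hs, hdu⟩ := hballout m u hlu le_rfl
      refine ⟨⟨s, hs, hdu.rtg⟩, ?_⟩
      by_cases huQ : u ∈ Q
      · obtain ⟨s, hs, hd⟩ := hQin u huQ
        exact ⟨s, hs, hd.rtg⟩
      · obtain ⟨s, hs, hd⟩ := hOin _ y hyc (by omega) rfl hyδ
        exact ⟨s, hs, Relation.ReflTransGen.head (Or.inr ⟨hadj.symm, fun h => huQ h.1,
          Or.inr (Or.inl ⟨hlu, hly, hyc, hyδ⟩)⟩) hd.rtg⟩
    have := hgt_le (R := G.Adj) ⟨u, hug, hdw1⟩
    omega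

end Pool.Agent.Lib.MP_1cd210_co
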