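import Pool.Agent.Lib.MP_1cd210_co.Defs

/-!
# The Chvátal–Thomassen lower bound `f(d) ≥ d²/2 + d`

For every `d ≥ 1` there is a connected bridgeless graph of diameter `d` all of whose
orientations have diameter at least `d²/2 + d`.  The graph is built from rooted gadgets:
`B₀` is a point, and `B_{s+1}` is a cycle of length `2s+3` through the root with a copy of
`B_s` glued at each of the two neighbours of the root.
-/

namespace Pool.Agent.Lib.MP_1cd210_co.Low

open Relation

section basics

/-- `A` is an orientation of the graph underlying the digraph `a`. -/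
structure Ori {V : Type} (a A : V → V → Prop) : Prop where
  adj : ∀ x y, A x y → a x y ∨ a y x
  total : ∀ x y, a x y → A x y ∨ A y x
  asymm : ∀ x y, A x y → ¬ A y x

theorem Ori.swap {V : Type} {a A : V → V → Prop} (h : Ori a A) :
    Ori a (fun x y => A y x) where
  adj x y hxy := (h.adj y x hxy).symm
  total x y hxy := (h.total x y hxy).symm
  asymm x y hxy := h.asymm y x hxy

variable {V : Type}

theorem DW.refl (A : V → V → Prop) (n : ℕ) (x : V) : DW A n x x := by
  cases n with
  | zero => rfl
  | succ n => exact Or.inl rfl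

theorem DW.succ {A : V → V → Prop} : ∀ {n : ℕ} {x y : V}, DW A n x y → DW A (n + 1) x y
  | 0, x, y, h => Or.inl h
  | n + 1, x, y, h => by
    rcases h with h | ⟨z, hz, h⟩
    · exact Or.inl h
    · exact Or.inr ⟨z, hz, DW.succ h⟩

theorem DW.mono {A : V → V → Prop} {m n : ℕ} (hmn : m ≤ n) {x y : V} (h : DW A m x y) :
    DW A n x y := by
  induction hmn with
  | refl => exact h
  | step _ ih => exact DW.succ ih

theorem DW.trans {A : V → V → Prop} : ∀ {m n : ℕ} {x y z : V}, DW A m x y → DW A n y z →
    DW A (m + n) x z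
  | 0, n, x, y, z, h1, h2 => by
    have h1' : x = y := h1
    subst h1'
    simpa using h2
  | m + 1, n, x, y, z, h1, h2 => by
    rcases h1 with h | ⟨w, hw, h⟩
    · subst h
      exact DW.mono (by omega) h2
    · have := DW.trans h h2
      rw [show m + 1 + n = (m + n) + 1 by ring]
      exact Or.inr ⟨w, hw, this⟩

theorem DW.single {A : V → V → Prop} {x y : V} (h : A x y) : DW A 1 x y :=
  Or.inr ⟨y, h, rfl⟩

theorem DW.symm {A : V → V → Prop} (hA : ∀ x y, A x y → A y x) :
    ∀ {n : ℕ} {x y : V}, DW A n x y → DW A n y x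
  | 0, x, y, h => by
    have h' : x = y := h
    exact h'.symm
  | n + 1, x, y, h => by
    rcases h with h | ⟨z, hz, h⟩
    · exact Or.inl h.symm
    · exact DW.trans (DW.symm hA h) (DW.single (hA _ _ hz))

theorem DW.map {W : Type} {A : V → V → Prop} {A' : W → W → Prop} (f : V → W)
    (hf : ∀ x y, A x y → A' (f x) (f y)) :
    ∀ {n : ℕ} {x y : V}, DW A n x y → DW A' n (f x) (f y)
  | 0, x, y, h => by
    have h' : x = y := h
    rw [h']
    exact DW.refl _ _ _
  | n + 1, x, y, h => by
    rcases h with h | ⟨z, hz, h⟩
    · exact Or.inl (by rw [h])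
    · exact Or.inr ⟨f z, hf _ _ hz, DW.map f hf h⟩

/-- a function increasing by at most one along arcs bounds distances from below -/
theorem DW.pot {A : V → V → Prop} {f : V → ℤ} (hf : ∀ x y, A x y → f y ≤ f x + 1) :
    ∀ {n : ℕ} {x y : V}, DW A n x y → f y ≤ f x + n
  | 0, x, y, h => by
    have h' : x = y := h
    rw [h']
    simp
  | n + 1, x, y, h => by
    rcases h with h | ⟨z, hz, h⟩
    · rw [h]
      push_cast
      linarith
    · have h1 := hf _ _ hz
      have h2 := DW.pot hf h
      push_cast
      linarith

theorem DW.rtg {A : V → V → Prop} : ∀ {n : ℕ} {x y : V}, DW A n x y → ReflTransGen A x y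
  | 0, x, y, h => by
    have h' : x = y := h
    rw [h']
  | n + 1, x, y, h => by
    rcases h with h | ⟨z, hz, h⟩
    · rw [h]
    · exact ReflTransGen.head hz (DW.rtg h)

end basics

/-! ### Gluing two copies of a rooted digraph to a digraph -/

section glue

variable {B V : Type} (R : V) (pos : Bool → B)

/-- The vertex set of the glued graph, inside `B × (Bool → V)`. -/
def X : Type :=
  {x : B × (Bool → V) // (∀ p, x.2 p = R) ∨ ∃ p, x.1 = pos p ∧ ∀ q, q ≠ p → x.2 q = R}

/-- inclusion of the base -/
def iB (b : B) : X R pos := ⟨(b, fun _ => R), Or.inl fun _ => rfl⟩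

/-- inclusion of the `p`-th copy -/
def iV (p : Bool) (v : V) : X R pos :=
  ⟨(pos p, Function.update (fun _ => R) p v),
    Or.inr ⟨p, rfl, fun q hq => by
      show Function.update (fun _ => R) p v q = R
      rw [Function.update_of_ne hq]⟩⟩

variable {R pos}

/-- retraction to the base -/
def rB (x : X R pos) : B := x.1.1

/-- retraction to the `p`-th copy -/
def rV (p : Bool) (x : X R pos) : V := x.1.2 p

@[simp] theorem rB_iB (b : B) : rB (iB R pos b) = b := rfl
@[simp] theorem rV_iB (p : Bool) (b : B) : rV p (iB R pos b) = R := rfl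
@[simp] theorem rB_iV (p : Bool) (v : V) : rB (iV R pos p v) = pos p := rfl
@[simp] theorem rV_iV (p : Bool) (v : V) : rV p (iV R pos p v) = v := by
  show Function.update (fun _ => R) p v p = v
  rw [Function.update_self]
theorem rV_iV_ne {p q : Bool} (h : q ≠ p) (v : V) : rV q (iV R pos p v) = R := by
  show Function.update (fun _ => R) p v q = R
  rw [Function.update_of_ne h]

@[simp] theorem rV_iV_not (p : Bool) (v : V) : rV (!p) (iV R pos p v) = R :=
  rV_iV_ne (by cases p <;> simp) v

@[simp] theorem rV_iV_not' (p : Bool) (v : V) : rV p (iV R pos (!p) v) = R :=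
  rV_iV_ne (by cases p <;> simp) v

theorem iV_R (p : Bool) : iV R pos p R = iB R pos (pos p) := by
  apply Subtype.ext
  show (pos p, Function.update (fun _ => R) p R) = (pos p, fun _ => R)
  rw [Function.update_eq_self p (fun _ : Bool => R)]

theorem X_cases (x : X R pos) : (∃ b, x = iB R pos b) ∨ ∃ p v, x = iV R pos p v := by
  rcases x.2 with h | ⟨p, h1, h2⟩
  · left
    refine ⟨x.1.1, Subtype.ext (Prod.ext rfl ?_)⟩
    funext p
    exact h p
  · right
    refine ⟨p, x.1.2 p, Subtype.ext (Prod.ext h1 ?_)⟩
    funext q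
    show x.1.2 q = Function.update (fun _ => R) p (x.1.2 p) q
    by_cases hq : q = p
    · subst hq
      rw [Function.update_self]
    · rw [Function.update_of_ne hq, h2 q hq]

variable (R pos)

/-- arcs of the glued digraph -/
inductive GArc (b : B → B → Prop) (a : V → V → Prop) : X R pos → X R pos → Prop
  | base {u v : B} : b u v → GArc b a (iB R pos u) (iB R pos v)
  | copy {p : Bool} {u v : V} : a u v → GArc b a (iV R pos p u) (iV R pos p v)

variable {R pos}
variable {b : B → B → Prop} {a : V → V → Prop}

theorem GArc.ret {x y : X R pos} (h : GArc R pos b a x y) :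
    (b (rB x) (rB y) ∧ ∀ p, rV p x = R ∧ rV p y = R) ∨
    ∃ p, a (rV p x) (rV p y) ∧ rB x = pos p ∧ rB y = pos p ∧
      ∀ q, q ≠ p → rV q x = R ∧ rV q y = R := by
  cases h with
  | base h => left; exact ⟨h, fun p => ⟨rfl, rfl⟩⟩
  | @copy p u v h =>
    right
    refine ⟨p, ?_, rfl, rfl, fun q hq => ⟨rV_iV_ne hq _, rV_iV_ne hq _⟩⟩
    simpa using h

theorem GArc.asymm (hb : ∀ x y, b x y → ¬ b y x) (ha : ∀ x y, a x y → ¬ a y x)
    (x y : X R pos) (h : GArc R pos b a x y) : ¬ GArc R pos b a y x := by
  intro h'
  have haR : ¬ a R R := fun h => ha _ _ h h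
  rcases h.ret with ⟨h1, h2⟩ | ⟨p, h1, h2, h3, h4⟩
  · rcases h'.ret with ⟨h1', h2'⟩ | ⟨p', h1', h2', h3', h4'⟩
    · exact hb _ _ h1 h1'
    · rw [(h2 p').1, (h2 p').2] at h1'
      exact haR h1'
  · rcases h'.ret with ⟨h1', h2'⟩ | ⟨p', h1', h2', h3', h4'⟩
    · rw [(h2' p).1, (h2' p).2] at h1
      exact haR h1
    · by_cases hp : p' = p
      · subst hp
        exact ha _ _ h1 h1'
      · rw [(h4 p' hp).1, (h4 p' hp).2] at h1'
        exact haR h1'

theorem GArc.copy_iff (hb : ∀ x y, b x y → ¬ b y x) (ha : ∀ x y, a x y → ¬ a y x)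
    {p : Bool} {u v : V} : GArc R pos b a (iV R pos p u) (iV R pos p v) ↔ a u v := by
  constructor
  · intro h
    rcases h.ret with ⟨h1, h2⟩ | ⟨q, h1, h2, h3, h4⟩
    · exact absurd h1 (fun h' => hb _ _ h' h')
    · by_cases hq : q = p
      · subst hq
        simpa using h1
      · rw [rV_iV_ne hq, rV_iV_ne hq] at h1
        exact absurd h1 (fun h' => ha _ _ h' h')
  · exact fun h => GArc.copy h

theorem GArc.base_iff (ha : ∀ x y, a x y → ¬ a y x)
    {u v : B} : GArc R pos b a (iB R pos u) (iB R pos v) ↔ b u v := by
  constructor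
  · intro h
    rcases h.ret with ⟨h1, h2⟩ | ⟨q, h1, h2, h3, h4⟩
    · exact h1
    · exact absurd h1 (fun h' => ha _ _ h' h')
  · exact fun h => GArc.base h

theorem ori_copy (hb : ∀ x y, b x y → ¬ b y x) (ha : ∀ x y, a x y → ¬ a y x)
    {A : X R pos → X R pos → Prop} (hA : Ori (GArc R pos b a) A) (p : Bool) :
    Ori a (fun u v => A (iV R pos p u) (iV R pos p v)) where
  adj x y h := by
    rcases hA.adj _ _ h with h | h
    · exact Or.inl ((GArc.copy_iff hb ha).1 h)
    · exact Or.inr ((GArc.copy_iff hb ha).1 h)
  total x y h := hA.total _ _ (GArc.copy h)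
  asymm x y h := hA.asymm _ _ h

theorem ori_base (ha : ∀ x y, a x y → ¬ a y x)
    {A : X R pos → X R pos → Prop} (hA : Ori (GArc R pos b a) A) :
    Ori b (fun u v => A (iB R pos u) (iB R pos v)) where
  adj x y h := by
    rcases hA.adj _ _ h with h | h
    · exact Or.inl ((GArc.base_iff ha).1 h)
    · exact Or.inr ((GArc.base_iff ha).1 h)
  total x y h := hA.total _ _ (GArc.base h)
  asymm x y h := hA.asymm _ _ h

/-- every arc of an orientation is an arc of the base or of a copy -/
theorem ori_cases {A : X R pos → X R pos → Prop} (hA : Ori (GArc R pos b a) A)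
    {x y : X R pos} (h : A x y) :
    (∃ u v, x = iB R pos u ∧ y = iB R pos v) ∨
      ∃ p u v, x = iV R pos p u ∧ y = iV R pos p v := by
  rcases hA.adj _ _ h with h | h
  · cases h with
    | @base u v h => exact Or.inl ⟨u, v, rfl, rfl⟩
    | @copy p u v h => exact Or.inr ⟨p, u, v, rfl, rfl⟩
  · cases h with
    | @base u v h => exact Or.inl ⟨v, u, rfl, rfl⟩
    | @copy p u v h => exact Or.inr ⟨p, v, u, rfl, rfl⟩

/-- walks project to walks in the copy -/
theorem reach_copy {A : X R pos → X R pos → Prop} (hA : Ori (GArc R pos b a) A) (p : Bool)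
    {x y : X R pos} (h : ReflTransGen A x y) :
    ReflTransGen (fun u v => A (iV R pos p u) (iV R pos p v)) (rV p x) (rV p y) := by
  induction h with
  | refl => exact ReflTransGen.refl
  | @tail y z _ hyz ih =>
    refine ih.trans ?_
    rcases ori_cases hA hyz with ⟨u, v, rfl, rfl⟩ | ⟨q, u, v, rfl, rfl⟩
    · rw [rV_iB, rV_iB]
    · by_cases hq : p = q
      · subst hq
        rw [rV_iV, rV_iV]
        exact ReflTransGen.single hyz
      · rw [rV_iV_ne hq, rV_iV_ne hq]

/-- gluing potentials -/
theorem glue_pot {A : X R pos → X R pos → Prop} (hA : Ori (GArc R pos b a) A)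
    {f : B → ℤ} {g : Bool → V → ℤ}
    (hf : ∀ u v, A (iB R pos u) (iB R pos v) → f v ≤ f u + 1)
    (hg : ∀ p u v, A (iV R pos p u) (iV R pos p v) → g p v ≤ g p u + 1)
    {x y : X R pos} (h : A x y) :
    f (rB y) + (g false (rV false y) + g true (rV true y)) ≤
      f (rB x) + (g false (rV false x) + g true (rV true x)) + 1 := by
  rcases ori_cases hA h with ⟨u, v, rfl, rfl⟩ | ⟨q, u, v, rfl, rfl⟩
  · have := hf u v h
    simp only [rB_iB, rV_iB]
    linarith
  · have := hg q u v h
    cases q
    · have e1 : ∀ w : V, rV true (iV R pos false w) = R := fun w => rV_iV_ne (by decide) w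
      simp only [rB_iV, rV_iV, e1]
      linarith
    · have e1 : ∀ w : V, rV false (iV R pos true w) = R := fun w => rV_iV_ne (by decide) w
      simp only [rB_iV, rV_iV, e1]
      linarith

end glue

/-! ### Rooted gadgets -/

/-- A rooted gadget: a finite digraph `a` on `V` with root `R`, strongly connected, whose
underlying graph has all vertices within distance `s` of the root (with `l` the distance to
the root), such that in each orientation with all vertices reaching the root, some vertex
has distance at least `t` from the root. -/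
structure Gad (V : Type) (R : V) (a : V → V → Prop) (l : V → ℤ) (s t : ℕ) : Prop where
  fin : Finite V
  asymm : ∀ x y, a x y → ¬ a y x
  out : ∀ v, ReflTransGen a R v
  inn : ∀ v, ReflTransGen a v R
  lR : l R = 0
  lip : ∀ u v, a u v → l u ≤ l v + 1 ∧ l v ≤ l u + 1
  near : ∀ v, DW (fun x y => a x y ∨ a y x) s v R
  far : ∃ v, l v = s
  lb : ∀ A, Ori a A → (∀ v, ReflTransGen A v R) →
    ∃ (y : V) (ψ : V → ℤ), ψ R = 0 ∧ ψ y = t ∧ ∀ u v, A u v → ψ v ≤ ψ u + 1

theorem gad0 : Gad Unit () (fun _ _ => False) (fun _ => 0) 0 0 where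
  fin := inferInstance
  asymm x y h := h.elim
  out v := ReflTransGen.refl
  inn v := ReflTransGen.refl
  lR := rfl
  lip u v h := h.elim
  near v := rfl
  far := ⟨(), rfl⟩
  lb A hA _ := ⟨(), fun _ => 0, rfl, rfl, fun u v h => by norm_num⟩

/-- the directed cycle of length `2 s + 3` -/
def cyc (s : ℕ) (i j : Fin (2 * s + 3)) : Prop :=
  j.val = i.val + 1 ∨ (i.val = 2 * s + 2 ∧ j.val = 0)

theorem cyc_asymm (s : ℕ) (i j : Fin (2 * s + 3)) (h : cyc s i j) : ¬ cyc s j i := by
  unfold cyc at *
  omega

/-- going forward on the cycle -/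
theorem cyc_fwd (s : ℕ) : ∀ (n : ℕ) (i j : Fin (2 * s + 3)), j.val = i.val + n →
    DW (cyc s) n i j
  | 0, i, j, h => by
    show i = j
    exact Fin.ext (by omega)
  | n + 1, i, j, h => by
    refine Or.inr ⟨⟨i.val + 1, by omega⟩, Or.inl rfl, cyc_fwd s n _ j ?_⟩
    show j.val = i.val + 1 + n
    omega

/-- going around through `0` -/
theorem cyc_around (s : ℕ) (i j : Fin (2 * s + 3)) (h : i.val ≤ j.val) :
    DW (cyc s) (2 * s + 3 - (j.val - i.val)) j i := by
  have hj := j.isLt
  have hi := i.isLt
  have h1 : DW (cyc s) (2 * s + 2 - j.val) j ⟨2 * s + 2, by omega⟩ :=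
    cyc_fwd s _ _ _ (by show 2 * s + 2 = j.val + (2 * s + 2 - j.val); omega)
  have h2 : DW (cyc s) 1 (⟨2 * s + 2, by omega⟩ : Fin (2 * s + 3)) ⟨0, by omega⟩ :=
    DW.single (Or.inr ⟨rfl, rfl⟩)
  have h3 : DW (cyc s) i.val (⟨0, by omega⟩ : Fin (2 * s + 3)) i :=
    cyc_fwd s _ _ _ (by show i.val = 0 + i.val; omega)
  have := DW.trans (DW.trans h1 h2) h3
  rw [show 2 * s + 3 - (j.val - i.val) = 2 * s + 2 - j.val + 1 + i.val by omega]
  exact this

theorem cyc_strong (s : ℕ) (i j : Fin (2 * s + 3)) : ReflTransGen (cyc s) i j := by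
  rcases Nat.le_total i.val j.val with h | h
  · exact DW.rtg (cyc_fwd s (j.val - i.val) i j (by omega))
  · exact DW.rtg (cyc_around s j i h)

theorem cyc_dist (s : ℕ) (i j : Fin (2 * s + 3)) :
    DW (fun x y => cyc s x y ∨ cyc s y x) (s + 1) i j := by
  have key : ∀ i j : Fin (2 * s + 3), i.val ≤ j.val →
      DW (fun x y => cyc s x y ∨ cyc s y x) (s + 1) i j := by
    intro i j h
    have hmap : ∀ {n : ℕ} {x y : Fin (2 * s + 3)}, DW (cyc s) n x y →
        DW (fun x y => cyc s x y ∨ cyc s y x) n x y := fun h =>
      DW.map (A' := fun x y => cyc s x y ∨ cyc s y x) id (fun x y h => Or.inl h) h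
    by_cases h2 : j.val - i.val ≤ s + 1
    · exact DW.mono h2 (hmap (cyc_fwd s (j.val - i.val) i j (by omega)))
    · have := hmap (cyc_around s i j h)
      exact DW.mono (by omega) (DW.symm (fun x y h => h.symm) this)
  rcases Nat.le_total i.val j.val with h | h
  · exact key i j h
  · exact DW.symm (fun x y h => h.symm) (key j i h)


/-- positions of the two copies in the recursive step: the neighbours of the root -/
def posS (s : ℕ) (p : Bool) : Fin (2 * s + 3) :=
  if p then ⟨1, by omega⟩ else ⟨2 * s + 2, by omega⟩

/-- distance to `0` on the cycle -/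
def lC (s : ℕ) (i : Fin (2 * s + 3)) : ℤ := min (i.val : ℤ) (2 * s + 3 - i.val)

theorem ori_self {V : Type} {a : V → V → Prop} (ha : ∀ x y, a x y → ¬ a y x) : Ori a a where
  adj _ _ h := Or.inl h
  total _ _ h := Or.inl h
  asymm := ha

theorem finite_X {B V : Type} [Finite B] [Finite V] (R : V) (pos : Bool → B) :
    Finite (X R pos) := by
  unfold X
  infer_instance

/-- strong connectivity of the glued digraph -/
theorem glue_strong {B V : Type} {R : V} {pos : Bool → B} {b : B → B → Prop}
    {a : V → V → Prop} (hb : ∀ x y, ReflTransGen b x y)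
    (ho : ∀ v, ReflTransGen a R v) (hi : ∀ v, ReflTransGen a v R) (x y : X R pos) :
    ReflTransGen (GArc R pos b a) x y := by
  have hB : ∀ u v : B, ReflTransGen (GArc R pos b a) (iB R pos u) (iB R pos v) := fun u v =>
    ReflTransGen.lift (iB R pos) (fun _ _ h => GArc.base h) _ _ (hb u v)
  have hV : ∀ (p : Bool) (u v : V), ReflTransGen a u v →
      ReflTransGen (GArc R pos b a) (iV R pos p u) (iV R pos p v) := fun p u v h =>
    ReflTransGen.lift (iV R pos p) (fun _ _ h => GArc.copy h) _ _ h
  have h1 : ∀ x : X R pos, ∃ c, ReflTransGen (GArc R pos b a) x (iB R pos c) := by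
    intro x
    rcases X_cases x with ⟨c, rfl⟩ | ⟨p, v, rfl⟩
    · exact ⟨c, ReflTransGen.refl⟩
    · refine ⟨pos p, ?_⟩
      rw [← iV_R]
      exact hV p v R (hi v)
  have h2 : ∀ y : X R pos, ∃ c, ReflTransGen (GArc R pos b a) (iB R pos c) y := by
    intro x
    rcases X_cases x with ⟨c, rfl⟩ | ⟨p, v, rfl⟩
    · exact ⟨c, ReflTransGen.refl⟩
    · refine ⟨pos p, ?_⟩
      rw [← iV_R]
      exact hV p R v (ho v)
  obtain ⟨c, hc⟩ := h1 x
  obtain ⟨c', hc'⟩ := h2 y
  exact (hc.trans (hB c c')).trans hc'

theorem cyc_adj_zero (s : ℕ) {u z : Fin (2 * s + 3)} (hz : z.val = 0)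
    (h : cyc s u z ∨ cyc s z u) : ∃ p, u = posS s p := by
  unfold cyc at h
  have h1 : u.val = 2 * s + 2 ∨ u.val = 1 := by omega
  rcases h1 with h1 | h1
  · exact ⟨false, Fin.ext h1⟩
  · exact ⟨true, Fin.ext h1⟩

/-- the recursive step -/
theorem gad_step {V : Type} {R : V} {a : V → V → Prop} {l : V → ℤ} {s t : ℕ}
    (h : Gad V R a l s t) :
    Gad (X R (posS s)) (iB R (posS s) ⟨0, by omega⟩) (GArc R (posS s) (cyc s) a)
      (fun x => lC s (rB x) + (l (rV false x) + l (rV true x))) (s + 1)
      (t + 2 * (s + 1)) where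
  fin := by
    have := h.fin
    exact finite_X _ _
  asymm := GArc.asymm (cyc_asymm s) h.asymm
  out v := glue_strong (cyc_strong s) h.out h.inn _ _
  inn v := glue_strong (cyc_strong s) h.out h.inn _ _
  lR := by
    simp only [rB_iB, rV_iB, h.lR, lC]
    simp
    omega
  lip u v huv := by
    have ho := ori_self (GArc.asymm (R := R) (pos := posS s) (cyc_asymm s) h.asymm)
    have hc : ∀ i j : Fin (2 * s + 3), cyc s i j → lC s j ≤ lC s i + 1 ∧ lC s i ≤ lC s j + 1 := by
      intro i j hij
      have hi := i.isLt
      have hj := j.isLt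
      unfold cyc at hij
      unfold lC
      omega
    constructor
    · have := glue_pot ho.swap (f := lC s) (g := fun _ => l) (x := v) (y := u) ?_ ?_ huv
      · simpa using this
      · intro i j hij
        exact (hc _ _ ((GArc.base_iff h.asymm).1 hij)).2
      · intro p i j hij
        exact (h.lip _ _ ((GArc.copy_iff (cyc_asymm s) h.asymm).1 hij)).1
    · have := glue_pot ho (f := lC s) (g := fun _ => l) (x := u) (y := v) ?_ ?_ huv
      · simpa using this
      · intro i j hij
        exact (hc _ _ ((GArc.base_iff h.asymm).1 hij)).1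
      · intro p i j hij
        exact (h.lip _ _ ((GArc.copy_iff (cyc_asymm s) h.asymm).1 hij)).2
  near v := by
    rcases X_cases v with ⟨c, rfl⟩ | ⟨p, v, rfl⟩
    · refine DW.map (iB R (posS s)) ?_ (cyc_dist s c ⟨0, by omega⟩)
      rintro x y (hxy | hxy)
      · exact Or.inl (GArc.base hxy)
      · exact Or.inr (GArc.base hxy)
    · refine DW.trans (y := iB R (posS s) (posS s p)) ?_ (DW.single ?_)
      · rw [← iV_R]
        refine DW.map (iV R (posS s) p) ?_ (h.near v)
        rintro x y (hxy | hxy)
        · exact Or.inl (GArc.copy hxy)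
        · exact Or.inr (GArc.copy hxy)
      · cases p
        · exact Or.inl (GArc.base (Or.inr ⟨rfl, rfl⟩))
        · exact Or.inr (GArc.base (Or.inl rfl))
  far := by
    obtain ⟨v, hv⟩ := h.far
    refine ⟨iV R (posS s) true v, ?_⟩
    have e1 : rV false (iV R (posS s) true v) = R := rV_iV_ne (by decide) v
    have e2 : lC s (posS s true) = 1 := by
      unfold lC posS
      simp
      omega
    simp only [rB_iV, rV_iV, e1, h.lR, hv, e2]
    push_cast
    ring
  lb A hA hr := by
    -- the arc entering the root
    have hne : iB R (posS s) ⟨0, by omega⟩ ≠ iB R (posS s) ⟨1, by omega⟩ := by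
      intro h0
      have := congrArg (fun x => (rB x).val) h0
      simp at this
    have hp : ∃ p, A (iB R (posS s) (posS s p)) (iB R (posS s) ⟨0, by omega⟩) := by
      rcases ReflTransGen.cases_tail (hr (iB R (posS s) ⟨1, by omega⟩)) with h0 | ⟨c, _, hc⟩
      · exact absurd h0 hne
      · rcases ori_cases hA hc with ⟨u, v, rfl, hv⟩ | ⟨q, u, v, rfl, hv⟩
        · have h1 := (ori_base h.asymm hA).adj u ⟨0, by omega⟩ hc
          obtain ⟨p, rfl⟩ := cyc_adj_zero s rfl h1
          exact ⟨p, hc⟩
        · exfalso
          have := congrArg (fun x => (rB x).val) hv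
          simp only [rB_iB, rB_iV, posS] at this
          cases q <;> simp at this
    obtain ⟨p, hp⟩ := hp
    have hcp := ori_copy (cyc_asymm s) h.asymm hA p
    have hrp : ∀ v, ReflTransGen (fun u v => A (iV R (posS s) p u) (iV R (posS s) p v)) v R := by
      intro v
      have := reach_copy hA p (hr (iV R (posS s) p v))
      simpa using this
    obtain ⟨y, ψ, h0, hy, hψ⟩ := h.lb _ hcp hrp
    have hbase := ori_base h.asymm hA
    -- potential on the cycle
    obtain ⟨f, hf0, hfp, hf⟩ : ∃ f : Fin (2 * s + 3) → ℤ, f ⟨0, by omega⟩ = 0 ∧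
        f (posS s p) = 2 * (s + 1) ∧
        ∀ u v, A (iB R (posS s) u) (iB R (posS s) v) → f v ≤ f u + 1 := by
      cases p
      · refine ⟨fun i => i.val, by simp, by simp [posS]; ring, ?_⟩
        intro u v huv
        rcases hbase.adj _ _ huv with h1 | h1
        · unfold cyc at h1
          dsimp only
          omega
        · unfold cyc at h1
          dsimp only
          rcases h1 with h1 | ⟨h1, h2⟩
          · omega
          · exfalso
            have e1 : v = posS s false := Fin.ext h1
            have e2 : u = ⟨0, by omega⟩ := Fin.ext h2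
            rw [e1, e2] at huv
            exact hA.asymm _ _ hp huv
      · refine ⟨fun i => if i.val = 0 then 0 else 2 * s + 3 - i.val, by simp, by
          simp [posS]; ring, ?_⟩
        intro u v huv
        have hu := u.isLt
        have hv := v.isLt
        rcases hbase.adj _ _ huv with h1 | h1
        · unfold cyc at h1
          dsimp only
          rcases h1 with h1 | ⟨h1, h2⟩
          · by_cases h3 : u.val = 0
            · exfalso
              have e1 : v = posS s true := Fin.ext (by simp [posS]; omega)
              have e2 : u = ⟨0, by omega⟩ := Fin.ext h3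
              rw [e1, e2] at huv
              exact hA.asymm _ _ hp huv
            · split_ifs <;> omega
          · split_ifs <;> omega
        · unfold cyc at h1
          dsimp only
          rcases h1 with h1 | ⟨h1, h2⟩
          · split_ifs <;> omega
          · split_ifs <;> omega
    refine ⟨iV R (posS s) p y, fun x => f (rB x) + ((if p = false then ψ else 0) (rV false x) +
      (if p = true then ψ else 0) (rV true x)), ?_, ?_, ?_⟩
    · simp only [rB_iB, rV_iB, hf0]
      cases p <;> simp [h0]
    · simp only [rB_iV, hfp]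
      cases p
      · simp [hy]
        ring
      · simp [hy]
        ring
    · intro u v huv
      have := glue_pot hA (f := f) (g := fun q => if p = q then ψ else 0) hf ?_ huv
      · simpa using this
      · intro q u v huv
        by_cases hq : p = q
        · subst hq
          simpa using hψ u v huv
        · simp [hq]

/-- the gadgets `B_s` -/
theorem gad (s : ℕ) : ∃ (V : Type) (R : V) (a : V → V → Prop) (l : V → ℤ),
    Gad V R a l s (s ^ 2 + s) := by
  induction s with
  | zero => exact ⟨_, _, _, _, gad0⟩
  | succ s ih =>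
    obtain ⟨V, R, a, l, h⟩ := ih
    rw [show (s + 1) ^ 2 + (s + 1) = s ^ 2 + s + 2 * (s + 1) by ring]
    exact ⟨_, _, _, _, gad_step h⟩

/-! ### The final graphs -/

/-- A finite strongly connected digraph whose underlying graph has diameter exactly `d` and
whose orientations all have diameter at least `t`. -/
structure Gr (V : Type) (a : V → V → Prop) (d t : ℕ) : Prop where
  fin : Finite V
  ne : Nonempty V
  asymm : ∀ x y, a x y → ¬ a y x
  strong : ∀ x y, ReflTransGen a x y
  near : ∀ x y, DW (fun x y => a x y ∨ a y x) d x y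
  far : ∃ (x y : V) (f : V → ℤ), f y = f x + d ∧
    ∀ u v, a u v → f u ≤ f v + 1 ∧ f v ≤ f u + 1
  lb : ∀ A, Ori a A → (∀ x y, ReflTransGen A x y) →
    ∃ (x y : V) (ψ : V → ℤ), ψ x + t ≤ ψ y ∧ ∀ u v, A u v → ψ v ≤ ψ u + 1

/-- both kinds of far vertices in a copy -/
theorem copy_lb {B V : Type} {R : V} {pos : Bool → B} {b : B → B → Prop}
    {a : V → V → Prop} {l : V → ℤ} {s t : ℕ} (h : Gad V R a l s t)
    (hb : ∀ x y, b x y → ¬ b y x)
    {A : X R pos → X R pos → Prop} (hA : Ori (GArc R pos b a) A)
    (hr : ∀ x y, ReflTransGen A x y) (p : Bool) :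
    (∃ (y : V) (ψ : V → ℤ), ψ R = 0 ∧ ψ y = t ∧
      ∀ u v, A (iV R pos p u) (iV R pos p v) → ψ v ≤ ψ u + 1) ∧
    (∃ (x : V) (φ : V → ℤ), φ R = 0 ∧ φ x = -t ∧
      ∀ u v, A (iV R pos p u) (iV R pos p v) → φ v ≤ φ u + 1) := by
  have hcp := ori_copy hb h.asymm hA p
  have hro : ∀ u v, ReflTransGen (fun u v => A (iV R pos p u) (iV R pos p v)) u v := by
    intro u v
    have := reach_copy hA p (hr (iV R pos p u) (iV R pos p v))
    simpa using this
  constructor
  · exact h.lb _ hcp (fun v => hro v R)
  · obtain ⟨x, φ, h0, hx, hφ⟩ := h.lb _ hcp.swap (fun v => by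
      have := hro R v
      rw [← reflTransGen_swap] at this
      exact this)
    refine ⟨x, fun v => - φ v, by simp [h0], by simp [hx], ?_⟩
    intro u v huv
    have := hφ v u huv
    dsimp only
    linarith

theorem near_copy {B V : Type} {R : V} {pos : Bool → B} {b : B → B → Prop}
    {a : V → V → Prop} {l : V → ℤ} {s t : ℕ} (h : Gad V R a l s t) (p : Bool) (v : V) :
    DW (fun x y => GArc R pos b a x y ∨ GArc R pos b a y x) s (iV R pos p v)
      (iB R pos (pos p)) := by
  rw [← iV_R]
  refine DW.map (iV R pos p) ?_ (h.near v)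
  rintro x y (hxy | hxy)
  · exact Or.inl (GArc.copy hxy)
  · exact Or.inr (GArc.copy hxy)

theorem gr_even (s : ℕ) : ∃ (V : Type) (a : V → V → Prop), Gr V a (2 * s) (2 * (s ^ 2 + s)) := by
  obtain ⟨V, R, a, l, h⟩ := gad s
  have hb : ∀ x y : Unit, (fun _ _ => False : Unit → Unit → Prop) x y →
    ¬ (fun _ _ => False : Unit → Unit → Prop) y x := fun _ _ h => h.elim
  have hb' : ∀ x y : Unit, ReflTransGen (fun _ _ => False : Unit → Unit → Prop) x y :=
    fun _ _ => ReflTransGen.refl
  refine ⟨X R (fun _ => ()), GArc R (fun _ => ()) (fun _ _ => False) a, ?_, ?_, ?_, ?_, ?_, ?_, ?_⟩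
  · have := h.fin
    exact finite_X _ _
  · exact ⟨iB R _ ()⟩
  · exact GArc.asymm hb h.asymm
  · exact glue_strong hb' h.out h.inn
  · have hnear : ∀ x : X R (fun _ => ()), DW (fun x y => GArc R (fun _ => ())
        (fun _ _ => False) a x y ∨ GArc R (fun _ => ()) (fun _ _ => False) a y x) s x
        (iB R (fun _ => ()) ()) := by
      intro x
      rcases X_cases x with ⟨c, rfl⟩ | ⟨p, v, rfl⟩
      · exact DW.refl _ _ _
      · exact near_copy h p v
    intro x y
    rw [two_mul]
    exact DW.trans (hnear x) (DW.symm (fun _ _ h => h.symm) (hnear y))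
  · obtain ⟨v, hv⟩ := h.far
    have ho := ori_self (GArc.asymm (R := R) (pos := fun _ => ()) hb h.asymm)
    refine ⟨iV R _ false v, iV R _ true v, fun x => 0 + ((if false then l else -l) (rV false x) +
      (if true then l else -l) (rV true x)), ?_, ?_⟩
    · have e1 : rV false (iV R (fun _ => ()) true v) = R := rV_iV_ne (by decide) v
      have e2 : rV true (iV R (fun _ => ()) false v) = R := rV_iV_ne (by decide) v
      simp [e1, e2, h.lR, hv]
      ring
    · intro u v huv
      constructor
      · have := glue_pot ho.swap (f := fun _ => 0) (g := fun q => if q then l else -l)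
          (x := v) (y := u) (by intros; norm_num) ?_ huv
        · simpa using this
        · intro p i j hij
          have := h.lip _ _ ((GArc.copy_iff hb h.asymm).1 hij)
          cases p <;> simp <;> linarith [this.1, this.2]
      · have := glue_pot ho (f := fun _ => 0) (g := fun q => if q then l else -l)
          (x := u) (y := v) (by intros; norm_num) ?_ huv
        · simpa using this
        · intro p i j hij
          have := h.lip _ _ ((GArc.copy_iff hb h.asymm).1 hij)
          cases p <;> simp <;> linarith [this.1, this.2]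
  · intro A hA hr
    obtain ⟨y, ψ, h0, hy, hψ⟩ := (copy_lb h hb hA hr true).1
    obtain ⟨x, φ, h0', hx, hφ⟩ := (copy_lb h hb hA hr false).2
    refine ⟨iV R _ false x, iV R _ true y, fun x => 0 + ((if false then ψ else φ) (rV false x) +
      (if true then ψ else φ) (rV true x)), ?_, ?_⟩
    · have e1 : rV false (iV R (fun _ => ()) true y) = R := rV_iV_ne (by decide) _
      have e2 : rV true (iV R (fun _ => ()) false x) = R := rV_iV_ne (by decide) _
      simp [e1, e2, h0, h0', hx, hy]
      linarith
    · intro u v huv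
      have := glue_pot hA (f := fun _ => 0) (g := fun q => if q then ψ else φ)
        (by intros; norm_num) ?_ huv
      · simpa using this
      · intro p i j hij
        cases p
        · simpa using hφ i j hij
        · simpa using hψ i j hij

/-- positions of the copies for odd diameter -/
def posO (s : ℕ) (p : Bool) : Fin (2 * s + 3) :=
  if p then ⟨0, by omega⟩ else ⟨2 * s + 2, by omega⟩

theorem gr_odd (s : ℕ) : ∃ (V : Type) (a : V → V → Prop),
    Gr V a (2 * s + 1) (2 * (s ^ 2 + s) + (2 * s + 2)) := by
  obtain ⟨V, R, a, l, h⟩ := gad s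
  have hb := cyc_asymm s
  refine ⟨X R (posO s), GArc R (posO s) (cyc s) a, ?_, ?_, ?_, ?_, ?_, ?_, ?_⟩
  · have := h.fin
    exact finite_X _ _
  · exact ⟨iB R _ ⟨0, by omega⟩⟩
  · exact GArc.asymm hb h.asymm
  · exact glue_strong (cyc_strong s) h.out h.inn
  · have hs : ∀ x y : X R (posO s), (GArc R (posO s) (cyc s) a x y ∨ GArc R (posO s) (cyc s) a y x) →
        (GArc R (posO s) (cyc s) a y x ∨ GArc R (posO s) (cyc s) a x y) := fun _ _ h => h.symm
    have hBB : ∀ c c' : Fin (2 * s + 3), DW (fun x y => GArc R (posO s) (cyc s) a x y ∨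
        GArc R (posO s) (cyc s) a y x) (s + 1) (iB R (posO s) c) (iB R (posO s) c') := by
      intro c c'
      refine DW.map (iB R (posO s)) ?_ (cyc_dist s c c')
      rintro x y (hxy | hxy)
      · exact Or.inl (GArc.base hxy)
      · exact Or.inr (GArc.base hxy)
    have hPP : ∀ p q : Bool, DW (fun x y => GArc R (posO s) (cyc s) a x y ∨
        GArc R (posO s) (cyc s) a y x) 1 (iB R (posO s) (posO s p))
        (iB R (posO s) (posO s q)) := by
      have h0 : GArc R (posO s) (cyc s) a (iB R (posO s) (posO s false))
          (iB R (posO s) (posO s true)) := GArc.base (Or.inr ⟨rfl, rfl⟩)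
      intro p q
      cases p <;> cases q
      · exact DW.refl _ _ _
      · exact DW.single (Or.inl h0)
      · exact DW.single (Or.inr h0)
      · exact DW.refl _ _ _
    intro x y
    rcases X_cases x with ⟨c, rfl⟩ | ⟨p, v, rfl⟩
    · rcases X_cases y with ⟨c', rfl⟩ | ⟨q, w, rfl⟩
      · exact DW.mono (by omega) (hBB c c')
      · rw [show 2 * s + 1 = s + 1 + s by ring]
        exact DW.trans (hBB c (posO s q)) (DW.symm hs (near_copy h q w))
    · rcases X_cases y with ⟨c', rfl⟩ | ⟨q, w, rfl⟩
      · rw [show 2 * s + 1 = s + (s + 1) by ring]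
        exact DW.trans (near_copy h p v) (hBB (posO s p) c')
      · rw [show 2 * s + 1 = s + (1 + s) by ring]
        exact DW.trans (near_copy h p v) (DW.trans (hPP p q) (DW.symm hs (near_copy h q w)))
  · obtain ⟨v, hv⟩ := h.far
    have ho := ori_self (GArc.asymm (R := R) (pos := posO s) hb h.asymm)
    refine ⟨iV R _ false v, iV R _ true v, fun x => (fun i : Fin (2 * s + 3) =>
      if i.val = 0 then (1 : ℤ) else 0) (rB x) + ((if false then l else -l) (rV false x) +
      (if true then l else -l) (rV true x)), ?_, ?_⟩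
    · have e1 : rV false (iV R (posO s) true v) = R := rV_iV_ne (by decide) v
      have e2 : rV true (iV R (posO s) false v) = R := rV_iV_ne (by decide) v
      simp [e1, e2, h.lR, hv, posO]
      ring
    · intro u v huv
      constructor
      · have := glue_pot ho.swap (f := fun i : Fin (2 * s + 3) =>
          if i.val = 0 then (1 : ℤ) else 0) (g := fun q => if q then l else -l)
          (x := v) (y := u) (by intro i j _; split_ifs <;> norm_num) ?_ huv
        · simpa using this
        · intro p i j hij
          have := h.lip _ _ ((GArc.copy_iff hb h.asymm).1 hij)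
          cases p <;> simp <;> linarith [this.1, this.2]
      · have := glue_pot ho (f := fun i : Fin (2 * s + 3) =>
          if i.val = 0 then (1 : ℤ) else 0) (g := fun q => if q then l else -l)
          (x := u) (y := v) (by intro i j _; split_ifs <;> norm_num) ?_ huv
        · simpa using this
        · intro p i j hij
          have := h.lip _ _ ((GArc.copy_iff hb h.asymm).1 hij)
          cases p <;> simp <;> linarith [this.1, this.2]
  · intro A hA hr
    have hbase := ori_base h.asymm hA
    have h0 : cyc s (posO s false) (posO s true) := Or.inr ⟨rfl, rfl⟩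
    rcases hbase.total _ _ h0 with h1 | h1
    · -- the arc goes from the last vertex to `0`
      obtain ⟨y, ψ, hψ0, hy, hψ⟩ := (copy_lb h hb hA hr false).1
      obtain ⟨x, φ, hφ0, hx, hφ⟩ := (copy_lb h hb hA hr true).2
      refine ⟨iV R _ true x, iV R _ false y, fun x => (fun i : Fin (2 * s + 3) =>
        (i.val : ℤ)) (rB x) + ((if false then φ else ψ) (rV false x) +
        (if true then φ else ψ) (rV true x)), ?_, ?_⟩
      · have e1 : rV false (iV R (posO s) true x) = R := rV_iV_ne (by decide) _
        have e2 : rV true (iV R (posO s) false y) = R := rV_iV_ne (by decide) _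
        simp [e1, e2, hψ0, hφ0, hx, hy, posO]
        linarith
      · intro u v huv
        have := glue_pot hA (f := fun i : Fin (2 * s + 3) => (i.val : ℤ))
          (g := fun q => if q then φ else ψ) ?_ ?_ huv
        · simpa using this
        · intro i j hij
          have hi := i.isLt
          have hj := j.isLt
          rcases hbase.adj _ _ hij with h2 | h2
          · unfold cyc at h2
            omega
          · unfold cyc at h2
            rcases h2 with h2 | ⟨h2, h3⟩
            · omega
            · exfalso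
              have e1 : j = posO s false := Fin.ext h2
              have e2 : i = posO s true := Fin.ext h3
              rw [e1, e2] at hij
              exact hA.asymm _ _ h1 hij
        · intro p i j hij
          cases p
          · simpa using hψ i j hij
          · simpa using hφ i j hij
    · obtain ⟨y, ψ, hψ0, hy, hψ⟩ := (copy_lb h hb hA hr true).1
      obtain ⟨x, φ, hφ0, hx, hφ⟩ := (copy_lb h hb hA hr false).2
      refine ⟨iV R _ false x, iV R _ true y, fun x => (fun i : Fin (2 * s + 3) =>
        (2 * s + 2 - i.val : ℤ)) (rB x) + ((if false then ψ else φ) (rV false x) +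
        (if true then ψ else φ) (rV true x)), ?_, ?_⟩
      · have e1 : rV false (iV R (posO s) true y) = R := rV_iV_ne (by decide) _
        have e2 : rV true (iV R (posO s) false x) = R := rV_iV_ne (by decide) _
        simp [e1, e2, hψ0, hφ0, hx, hy, posO]
        linarith
      · intro u v huv
        have := glue_pot hA (f := fun i : Fin (2 * s + 3) => (2 * s + 2 - i.val : ℤ))
          (g := fun q => if q then ψ else φ) ?_ ?_ huv
        · simpa using this
        · intro i j hij
          have hi := i.isLt
          have hj := j.isLt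
          rcases hbase.adj _ _ hij with h2 | h2
          · unfold cyc at h2
            rcases h2 with h2 | ⟨h2, h3⟩
            · omega
            · exfalso
              have e1 : i = posO s false := Fin.ext h2
              have e2 : j = posO s true := Fin.ext h3
              rw [e1, e2] at hij
              exact hA.asymm _ _ h1 hij
          · unfold cyc at h2
            omega
        · intro p i j hij
          cases p
          · simpa using hφ i j hij
          · simpa using hψ i j hij

theorem walk_of_DW {V : Type} {G : SimpleGraph V} : ∀ {n : ℕ} {x y : V}, DW G.Adj n x y →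
    ∃ p : G.Walk x y, p.length ≤ n
  | 0, x, y, h => by
    have h' : x = y := h
    subst h'
    exact ⟨SimpleGraph.Walk.nil, le_rfl⟩
  | n + 1, x, y, h => by
    rcases h with h | ⟨z, hz, h⟩
    · subst h
      exact ⟨SimpleGraph.Walk.nil, Nat.zero_le _⟩
    · obtain ⟨p, hp⟩ := walk_of_DW h
      exact ⟨SimpleGraph.Walk.cons hz p, by simpa using hp⟩

theorem DW_of_walk {V : Type} {G : SimpleGraph V} {x y : V} (p : G.Walk x y) :
    DW G.Adj p.length x y := by
  induction p with
  | nil => exact DW.refl _ _ _
  | cons h _ ih => exact Or.inr ⟨_, h, ih⟩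

theorem final {V : Type} {a : V → V → Prop} {d t : ℕ} (h : Gr V a d t) :
    ∃ (n : ℕ) (G : SimpleGraph (Fin n)), G.Connected ∧ Bridgeless G ∧ G.diam = d ∧
      ∀ k, OrientedDiamLE G k → t ≤ k := by
  have := h.fin
  have := h.ne
  obtain ⟨n, ⟨e⟩⟩ := Finite.exists_equiv_fin V
  let G : SimpleGraph (Fin n) :=
    { Adj := fun i j => a (e.symm i) (e.symm j) ∨ a (e.symm j) (e.symm i)
      symm := ⟨fun i j hij => Or.symm hij⟩
      loopless := ⟨fun i hi => h.asymm _ _ (hi.elim id id) (hi.elim id id)⟩ }
  have : Nonempty (Fin n) := ⟨e (Classical.arbitrary V)⟩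
  have hGadj : ∀ i j, G.Adj i j ↔ (a (e.symm i) (e.symm j) ∨ a (e.symm j) (e.symm i)) :=
    fun i j => Iff.rfl
  have hnear : ∀ i j, DW G.Adj d i j := by
    intro i j
    have h1 := DW.map (A' := G.Adj) e (by
      intro x y hxy
      rw [hGadj]
      simpa using hxy) (h.near (e.symm i) (e.symm j))
    simpa using h1
  have hconn : G.Connected := by
    refine ⟨fun i j => ?_⟩
    obtain ⟨p, _⟩ := walk_of_DW (hnear i j)
    exact ⟨p⟩
  have hdist : ∀ i j, G.dist i j ≤ d := by
    intro i j
    obtain ⟨p, hp⟩ := walk_of_DW (hnear i j)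
    exact (SimpleGraph.dist_le p).trans hp
  refine ⟨n, G, hconn, ?_, ?_, ?_⟩
  · -- bridgeless
    have key : ∀ x y, a (e.symm x) (e.symm y) → ¬ G.IsBridge s(x, y) := by
      intro x y hxy
      rw [SimpleGraph.isBridge_iff]
      intro hb
      apply hb
      have hne : x ≠ y := by
        rintro rfl
        exact h.asymm _ _ hxy hxy
      have h1 : ∀ z, ReflTransGen a z (e.symm x) →
          (G.deleteEdges {s(x, y)}).Reachable (e z) x := by
        intro z hz
        induction hz using ReflTransGen.head_induction_on with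
        | refl => simp
        | @head u w huw _ ih =>
          by_cases hu : e u = x
          · rw [hu]
          · refine SimpleGraph.Reachable.trans (SimpleGraph.Adj.reachable ?_) ih
            rw [SimpleGraph.deleteEdges_adj]
            refine ⟨Or.inl (by simpa using huw), ?_⟩
            intro h2
            rw [Set.mem_singleton_iff, Sym2.eq_iff] at h2
            rcases h2 with ⟨h2, h3⟩ | ⟨h2, h3⟩
            · exact hu h2
            · have e1 : u = e.symm y := by rw [← h2]; simp
              have e2 : w = e.symm x := by rw [← h3]; simp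
              rw [e1, e2] at huw
              exact h.asymm _ _ hxy huw
      have h2 := h1 (e.symm y) (h.strong _ _)
      rw [Equiv.apply_symm_apply] at h2
      exact h2.symm
    intro x y hxy
    rcases hxy with hxy | hxy
    · exact key x y hxy
    · rw [Sym2.eq_swap]
      exact key y x hxy
  · -- diameter
    apply le_antisymm
    · obtain ⟨u, v, huv⟩ := G.exists_dist_eq_diam
      rw [← huv]
      exact hdist u v
    · obtain ⟨x, y, f, hxy, hf⟩ := h.far
      have h1 : d ≤ G.dist (e x) (e y) := by
        obtain ⟨p, hp⟩ := hconn.exists_walk_length_eq_dist (e x) (e y)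
        have h2 := DW_of_walk p
        rw [hp] at h2
        have h3 := DW.pot (f := fun i => f (e.symm i)) (by
          intro i j hij
          rcases hij with hij | hij
          · exact (hf _ _ hij).2
          · exact (hf _ _ hij).1) h2
        simp only [Equiv.symm_apply_apply] at h3
        omega
      exact h1.trans (SimpleGraph.dist_le_diam (SimpleGraph.connected_iff_ediam_ne_top.1 hconn))
  · rintro k ⟨A, hA, hk⟩
    have hO : Ori a (fun u v => A (e u) (e v)) :=
      { adj := by
          intro x y hxy
          have := hA.adj _ _ hxy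
          rw [hGadj] at this
          simpa using this
        total := by
          intro x y hxy
          refine hA.total _ _ ?_
          rw [hGadj]
          left
          simpa using hxy
        asymm := fun x y hxy => hA.asymm _ _ hxy }
    obtain ⟨x, y, ψ, h1, h2⟩ := h.lb _ hO (by
      intro x y
      have := DW.rtg (DW.map (A' := fun u v => A (e u) (e v)) e.symm (by
        intro i j hij
        simpa using hij) (hk (e x) (e y)))
      simpa using this)
    have h3 := DW.pot (f := fun i => ψ (e.symm i)) (by
      intro i j hij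
      refine h2 _ _ ?_
      simpa using hij) (hk (e x) (e y))
    simp only [Equiv.symm_apply_apply] at h3
    omega

end Pool.Agent.Lib.MP_1cd210_co.Low

namespace Pool.Agent.Lib.MP_1cd210_co

/-- **Chvátal–Thomassen (1978), lower bound.**  For every `d ≥ 1` there is a connected
bridgeless graph of diameter `d` all of whose orientations have diameter at least
`d²/2 + d`. -/
theorem lower (d : ℕ) (hd : 1 ≤ d) :
    ∃ (n : ℕ) (G : SimpleGraph (Fin n)), G.Connected ∧ Bridgeless G ∧ G.diam = d ∧
      ∀ k, OrientedDiamLE G k → d ^ 2 + 2 * d ≤ 2 * k := by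
  rcases Nat.even_or_odd' d with ⟨s, rfl | rfl⟩
  · obtain ⟨V, a, h⟩ := Low.gr_even s
    obtain ⟨n, G, h1, h2, h3, h4⟩ := Low.final h
    refine ⟨n, G, h1, h2, h3, fun k hk => ?_⟩
    have := h4 k hk
    nlinarith
  · obtain ⟨V, a, h⟩ := Low.gr_odd s
    obtain ⟨n, G, h1, h2, h3, h4⟩ := Low.final h
    refine ⟨n, G, h1, h2, h3, fun k hk => ?_⟩
    have := h4 k hk
    nlinarith

end Pool.Agent.Lib.MP_1cd210_co
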