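import Pool.Agent.Lib.MP_1cd210_co.Hub

/-!
# The upper bound
-/

namespace Pool.Agent.Lib.MP_1cd210_co

variable {V : Type} {A : V → V → Prop} {S : Set V} {D e : ℕ}

theorem hub_rounds [Finite V] {G : SimpleGraph V} (hG : G.Connected) {d r : ℕ} {w : V}
    (hd : ∀ x y, DW G.Adj d x y) (hr : ∀ v, ∃ g, ¬ DW G.Adj (r - 1) v g)
    (hw : ∀ g, DW G.Adj r g w) (hrd : r ≤ d) :
    ∀ (n e : ℕ) (S : Set V) (A : V → V → Prop) (D : ℕ), State G S A D → w ∈ S →
      (∀ v, hgt G.Adj S v ≤ e) → 2 * e < d + 2 + 3 ^ n →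
      ∃ S' A' e', State G S' A' (D + 10 * d * n) ∧ w ∈ S' ∧ (∀ v, hgt G.Adj S' v ≤ e') ∧
        2 * e' ≤ d + 2 := by
  intro n
  induction n with
  | zero =>
    intro e S A D hS hwS he h
    exact ⟨S, A, e, hS.mono_D (by omega), hwS, he, by simp at h; omega⟩
  | succ n ih =>
    intro e S A D hS hwS he h
    have : Nonempty V := ⟨w⟩
    obtain ⟨q0, hq0⟩ := Finite.exists_max (fun v => hgt G.Adj S v)
    obtain ⟨e0, he0⟩ : ∃ e0, e0 = hgt G.Adj S q0 := ⟨_, rfl⟩
    have hee : e0 ≤ e := he0 ▸ he q0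
    by_cases h2 : 2 * e0 ≤ d + 2
    · exact ⟨S, A, e0, hS.mono_D (by omega), hwS, fun v => he0 ▸ hq0 v, h2⟩
    · have hm3 : 3 * ((2 * e0 - d) / 3) ≤ 2 * e0 - d := Nat.mul_div_le _ _
      obtain ⟨S', A', hS', hSS', he'⟩ := hub_round (m := (2 * e0 - d) / 3) hG hd hr hw hwS hrd hS
        (fun v => he0 ▸ hq0 v) he0.symm (by omega) (by omega)
      rw [pow_succ] at h
      obtain ⟨S'', A'', e'', h3, h4, h5, h6⟩ := ih (e0 - (2 * e0 - d) / 3) S' A' (D + 10 * d) hS'
        (hSS' hwS) he' (by omega)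
      exact ⟨S'', A'', e'', h3.mono_D (by ring_nf; omega), h4, h5, h6⟩

theorem ct_rounds [Finite V] {G : SimpleGraph V} (hG : G.Connected) (hb : Bridgeless G) :
    ∀ (e : ℕ) (S : Set V) (A : V → V → Prop) (D : ℕ), State G S A D → S.Nonempty →
      (∀ v, hgt G.Adj S v ≤ e) → OrientedDiamLE G (D + 2 * (e * (e + 1))) := by
  intro e
  induction e with
  | zero =>
    intro S A D hS hne he
    have : S = Set.univ := by
      ext v
      simp only [Set.mem_univ, iff_true]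
      exact mem_of_hgt (CoR_of_connected hG hne v) (by have := he v; omega)
    subst this
    simpa using hS.complete
  | succ e ih =>
    intro S A D hS hne he
    obtain ⟨S', A', hS', hSS', he'⟩ := ct_step hG hb hne hS he (by omega)
    have := ih S' A' _ hS' (hne.mono hSS') (by simpa using he')
    have h2 : D + 4 * (e + 1) + 2 * (e * (e + 1)) = D + 2 * ((e + 1) * (e + 1 + 1)) := by ring
    rwa [h2] at this

/-- **Upper bound.** Every connected bridgeless graph of diameter `d` has a strong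
orientation of diameter at most `(d ^ 2 + 26 d + 8) / 2 + 10 d log_3 d`. -/
theorem upper [Finite V] {G : SimpleGraph V} (hG : G.Connected) (hb : Bridgeless G) {d : ℕ}
    (hd1 : 1 ≤ d) (hdiam : G.diam = d) :
    ∃ k, OrientedDiamLE G k ∧ 2 * k ≤ d ^ 2 + 34 * d + 20 * (d * Nat.log 3 d) := by
  classical
  have hne : Nonempty V := hG.nonempty
  have hed : G.ediam ≠ ⊤ := SimpleGraph.connected_iff_ediam_ne_top.1 hG
  have hd : ∀ x y, DW G.Adj d x y := by
    intro x y
    obtain ⟨p, hp⟩ := hG.exists_walk_length_eq_dist x y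
    have h1 := DW_of_walk p
    have h2 : G.dist x y ≤ d := hdiam ▸ SimpleGraph.dist_le_diam hed
    exact h1.mono_len (by omega)
  have hex : ∃ n, ∃ w, ∀ g, DW G.Adj n g w := ⟨d, hne.some, fun g => hd g _⟩
  obtain ⟨r, hr⟩ : ∃ r, r = Nat.find hex := ⟨_, rfl⟩
  obtain ⟨w, hw⟩ := Nat.find_spec hex
  rw [← hr] at hw
  have hrd : r ≤ d := hr ▸ Nat.find_min' hex ⟨hne.some, fun g => hd g _⟩
  have hS0 : State G {w} (fun _ _ => False) 0 := by
    refine ⟨fun _ _ h => h.elim, fun _ _ h => h.elim, fun _ _ h => h.elim, ?_⟩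
    intro x hx y hy
    rw [Set.mem_singleton_iff] at hx hy
    rw [hx, hy]
    exact DW.rfl'
  have he0 : ∀ v, hgt G.Adj {w} v ≤ r := fun v => hgt_le ⟨w, rfl, hw v⟩
  have hfin : ∃ S' A' e', State G S' A' (0 + 10 * d * (Nat.log 3 d + 1)) ∧ w ∈ S' ∧
      (∀ v, hgt G.Adj S' v ≤ e') ∧ 2 * e' ≤ d + 2 := by
    rcases Nat.eq_zero_or_pos r with h0 | h0
    · exact ⟨{w}, _, 0, hS0.mono_D (by omega), rfl, fun v => (he0 v).trans (by omega), by omega⟩
    · refine hub_rounds hG hd ?_ hw hrd (Nat.log 3 d + 1) r {w} _ 0 hS0 rfl he0 ?_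
      · intro v
        have h1 := Nat.find_min hex (m := r - 1) (by omega)
        push Not at h1
        obtain ⟨g, hg⟩ := h1 v
        exact ⟨g, fun h => hg (h.symm fun _ _ h => h.symm)⟩
      · have := Nat.lt_pow_succ_log_self (b := 3) (by norm_num) d
        omega
  obtain ⟨S', A', e', h1, h2, h3, h4⟩ := hfin
  refine ⟨_, ct_rounds hG hb e' S' A' _ h1 ⟨w, h2⟩ h3, ?_⟩
  have h5 : (2 * e') * (2 * e' + 2) ≤ (d + 2) * (d + 4) :=
    Nat.mul_le_mul h4 (by omega)
  nlinarith [h5]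

end Pool.Agent.Lib.MP_1cd210_co
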